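import Mathlib

set_option autoImplicit false

namespace Pool.Agent.P.MP_97b573_an

open Polynomial Finset

theorem digits_inj (B : ℕ) : ∀ (m : ℕ) (a c : ℕ → ℕ), (∀ i, a i < B) → (∀ i, c i < B) →
    ∑ i ∈ range m, a i * B ^ i ≡ ∑ i ∈ range m, c i * B ^ i [MOD B ^ m] → ∀ i < m, a i = c i := by
  intro m
  induction m with
  | zero => intro a c _ _ _ i hi; omega
  | succ m ih =>
    intro a c ha hc h
    have e : ∀ f : ℕ → ℕ, ∑ i ∈ range (m + 1), f i * B ^ i
        = f 0 + B * ∑ i ∈ range m, f (i + 1) * B ^ i := by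
      intro f
      rw [sum_range_succ', mul_sum, add_comm]
      simp only [pow_zero, mul_one, pow_succ]
      congr 1
      exact sum_congr rfl fun i _ => by ring
    rw [e, e] at h
    have hB : 0 < B := lt_of_le_of_lt (Nat.zero_le _) (ha 0)
    have h0 : a 0 = c 0 := by
      have h1 := h.of_dvd (dvd_pow_self B (Nat.succ_ne_zero m))
      unfold Nat.ModEq at h1
      rw [Nat.add_mul_mod_self_left, Nat.add_mul_mod_self_left, Nat.mod_eq_of_lt (ha 0),
        Nat.mod_eq_of_lt (hc 0)] at h1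
      exact h1
    rw [h0] at h
    have h2 := Nat.ModEq.add_left_cancel' _ h
    rw [pow_succ'] at h2
    have h3 := Nat.ModEq.mul_left_cancel' hB.ne' h2
    intro i hi
    cases i with
    | zero => exact h0
    | succ i => exact ih (fun i => a (i + 1)) (fun i => c (i + 1)) (fun _ => ha _) (fun _ => hc _)
                  h3 i (by omega)

/-- The almost independent generators. -/
def gen (B m : ℕ) (i : Fin m) : ℕ := B ^ m + B ^ (i : ℕ)

/-- Position of a vector of multiplicities. -/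
def pos (B m : ℕ) (k : Fin m → ℕ) : ℕ := ∑ i, k i * gen B m i

theorem pos_add_single (B m : ℕ) (k : Fin m → ℕ) (i : Fin m) :
    pos B m (k + Pi.single i 1) = pos B m k + gen B m i := by
  simp [pos, add_mul, sum_add_distrib, Pi.single_apply]

theorem deg_add_single (m : ℕ) (k : Fin m → ℕ) (i : Fin m) :
    ∑ j, (k + Pi.single i 1 : Fin m → ℕ) j = ∑ j, k j + 1 := by
  simp [sum_add_distrib]

theorem gen_lt {B m : ℕ} (hB : 2 ≤ B) (i : Fin m) : gen B m i < 2 * B ^ m := by
  have := Nat.pow_lt_pow_right (show 1 < B by omega) i.2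
  unfold gen
  omega

theorem pos_lt {B m P Q : ℕ} (hB : 2 ≤ B) (hQ : 2 * P ≤ Q) (k : Fin m → ℕ) (hk : ∑ i, k i < P) :
    pos B m k < Q * B ^ m := by
  have h1 : pos B m k ≤ (∑ i, k i) * (2 * B ^ m) := by
    rw [sum_mul]
    exact sum_le_sum fun i _ => Nat.mul_le_mul_left _ (gen_lt hB i).le
  have h2 : 0 < B ^ m := Nat.pow_pos (by omega)
  calc pos B m k ≤ (∑ i, k i) * (2 * B ^ m) := h1
    _ < P * (2 * B ^ m) := Nat.mul_lt_mul_of_pos_right hk (by omega)
    _ = 2 * P * B ^ m := by ring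
    _ ≤ Q * B ^ m := Nat.mul_le_mul_right _ hQ

theorem indep {B m Q : ℕ} (hQ : 0 < Q) (a a' : ℕ) (k k' : Fin m → ℕ) (hk : ∑ i, k i < B)
    (hk' : ∑ i, k' i < B)
    (h : a * (Q * B ^ m) + pos B m k = a' * (Q * B ^ m) + pos B m k') : k = k' ∧ a = a' := by
  have hB : 0 < B := by omega
  have e : ∀ (a : ℕ) (k : Fin m → ℕ), a * (Q * B ^ m) + pos B m k ≡
      ∑ i ∈ range m, (if h : i < m then k ⟨i, h⟩ else 0) * B ^ i [MOD B ^ m] := by
    intro a k
    have : pos B m k = (∑ i, k i) * B ^ m +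
        ∑ i ∈ range m, (if h : i < m then k ⟨i, h⟩ else 0) * B ^ i := by
      rw [sum_range, sum_mul, ← sum_add_distrib]
      refine sum_congr rfl fun i _ => ?_
      simp [gen, mul_add]
    rw [this, ← add_assoc, ← mul_assoc, ← add_mul]
    unfold Nat.ModEq
    rw [add_comm, Nat.add_mul_mod_self_right]
  have b : ∀ (k : Fin m → ℕ), ∑ i, k i < B → ∀ i, (if h : i < m then k ⟨i, h⟩ else 0) < B := by
    intro k hk i
    split_ifs with hi
    · exact lt_of_le_of_lt (single_le_sum (f := k) (fun _ _ => Nat.zero_le _) (mem_univ _)) hk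
    · exact hB
  have h1 := digits_inj B m _ _ (b k hk) (b k' hk') ((e a k).symm.trans (h ▸ e a' k'))
  have h2 : k = k' := by
    funext i
    simpa using h1 i i.2
  subst h2
  refine ⟨rfl, ?_⟩
  have h3 : 0 < Q * B ^ m := Nat.mul_pos hQ (Nat.pow_pos hB)
  exact Nat.eq_of_mul_eq_mul_right h3 (by omega)

theorem step (P Q : ℕ) (hP : 1 ≤ P) (hQ : 2 * P ≤ Q) (Φ : ℝ[X] →ₗ[ℝ] ℝ) (w : ℝ[X]) (hw : X ∣ w)
    (hΦ : ∀ g, Φ (X ^ P * g) = 0) (hbd : ∀ a i, |Φ (X ^ a * w ^ i)| ≤ 1) :
    ∃ (M m : ℕ) (u : Fin m → ℕ) (Ψ : ℝ[X] →ₗ[ℝ] ℝ), Q ∣ M ∧ 0 < M ∧ 0 < m ∧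
      (∀ i, 0 < u i ∧ u i < M) ∧ (∀ g, Ψ (expand ℝ M g) = Φ g) ∧
      (∀ g, Ψ (X ^ (P * M) * g) = 0) ∧
      ∀ a i, |Ψ (X ^ a * (C 2 * (expand ℝ M w - C (1 / (m : ℝ)) * ∑ j, X ^ u j)) ^ i)| ≤ 1 := by
  classical
  set J := P * Q with hJ
  set m := J * 4 ^ J with hm
  set B := P + J + 1 with hB
  set M := Q * B ^ m with hM
  have hQ0 : 0 < Q := by omega
  have hJ0 : 0 < J := Nat.mul_pos hP hQ0
  have hm0 : 0 < m := Nat.mul_pos hJ0 (Nat.pow_pos (by norm_num))
  have hB2 : 2 ≤ B := by omega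
  have hBm : 0 < B ^ m := Nat.pow_pos (by omega)
  have hM0 : 0 < M := Nat.mul_pos hQ0 hBm
  have hmR : (0 : ℝ) < m := by exact_mod_cast hm0
  let cone : ℕ → Prop := fun p => ∃ t : ℕ × (Fin m → ℕ), ∑ i, t.2 i < P ∧ p = t.1 * M + pos B m t.2
  let ψ : ℕ → ℝ := fun p =>
    if h : cone p then Φ (X ^ h.choose.1 * w ^ (∑ i, h.choose.2 i)) else 0
  let Ψ : ℝ[X] →ₗ[ℝ] ℝ := (basisMonomials ℝ).constr ℝ ψ
  have hΨ : ∀ p, Ψ (X ^ p) = ψ p := by
    intro p
    have := (basisMonomials ℝ).constr_basis ℝ ψ p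
    rw [coe_basisMonomials] at this
    rw [← monomial_one_right_eq_X_pow]
    exact this
  have hwz : ∀ (g : ℝ[X]) (d : ℕ), P ≤ d → Φ (g * w ^ d) = 0 := by
    intro g d hd
    obtain ⟨c, hc⟩ : X ^ P ∣ w ^ d := (pow_dvd_pow_of_dvd hw P).trans (pow_dvd_pow w hd)
    rw [hc, mul_left_comm, hΦ]
  have ψ1 : ∀ (a : ℕ) (k : Fin m → ℕ), ∑ i, k i < B →
      ψ (a * M + pos B m k) = Φ (X ^ a * w ^ (∑ i, k i)) := by
    intro a k hk
    by_cases h : cone (a * M + pos B m k)
    · simp only [ψ, dif_pos h]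
      obtain ⟨h1, h2⟩ := h.choose_spec
      obtain ⟨e1, e2⟩ := indep hQ0 _ _ _ _ hk (by omega) h2
      rw [← e1, ← e2]
    · simp only [ψ, dif_neg h]
      refine (hwz _ _ ?_).symm
      by_contra hlt
      exact h ⟨(a, k), by simpa using hlt, rfl⟩
  have ψ2 : ∀ p, ¬ cone p → ψ p = 0 := fun p h => by simp only [ψ, dif_neg h]
  have lin : ∀ (F G : ℝ[X] →ₗ[ℝ] ℝ), (∀ n, F (X ^ n) = G (X ^ n)) → ∀ g, F g = G g := by
    intro F G h g
    induction g using Polynomial.induction_on' with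
    | add p q hp hq => rw [map_add, map_add, hp, hq]
    | monomial n c => rw [← smul_X_eq_monomial, map_smul, map_smul, h]
  have E1 : ∀ (a : ℕ) (k : Fin m → ℕ), ∑ i, k i < B → ∀ b,
      Ψ (X ^ (a * M + pos B m k) * expand ℝ M b) = Φ (X ^ a * b * w ^ (∑ i, k i)) := by
    intro a k hk
    apply lin (Ψ ∘ₗ LinearMap.mulLeft ℝ (X ^ (a * M + pos B m k)) ∘ₗ (expand ℝ M).toLinearMap)
      (Φ ∘ₗ LinearMap.mulRight ℝ (w ^ (∑ i, k i)) ∘ₗ LinearMap.mulLeft ℝ (X ^ a))
    intro n
    simp only [LinearMap.comp_apply, LinearMap.mulLeft_apply, LinearMap.mulRight_apply,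
      AlgHom.toLinearMap_apply, map_pow, expand_X]
    rw [← pow_mul, ← pow_add, ← pow_add, hΨ, ← ψ1 (a + n) k hk]
    congr 1
    ring
  have E2 : ∀ p, ¬ cone p → ∀ b, Ψ (X ^ p * expand ℝ M b) = 0 := by
    intro p hp
    apply lin (Ψ ∘ₗ LinearMap.mulLeft ℝ (X ^ p) ∘ₗ (expand ℝ M).toLinearMap) 0
    intro n
    simp only [LinearMap.comp_apply, LinearMap.mulLeft_apply,
      AlgHom.toLinearMap_apply, map_pow, expand_X, LinearMap.zero_apply]
    rw [← pow_mul, ← pow_add, hΨ]
    apply ψ2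
    rintro ⟨⟨a, k⟩, h1, h2⟩
    have h3 : pos B m k < M := pos_lt hB2 hQ k h1
    simp only at h1 h2
    have h4 : n ≤ a := by
      by_contra hlt
      have : (a + 1) * M ≤ n * M := Nat.mul_le_mul_right _ (by omega)
      nlinarith
    obtain ⟨c, rfl⟩ := Nat.exists_eq_add_of_le h4
    exact hp ⟨(c, k), h1, by simp only; nlinarith⟩
  have Z : ∀ g, Ψ (X ^ (P * M) * g) = 0 := by
    apply lin (Ψ ∘ₗ LinearMap.mulLeft ℝ (X ^ (P * M))) 0
    intro n
    simp only [LinearMap.comp_apply, LinearMap.mulLeft_apply, LinearMap.zero_apply]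
    rw [← pow_add, hΨ]
    by_cases h : cone (P * M + n)
    · obtain ⟨⟨a, k⟩, h1, h2⟩ := h
      have h3 : pos B m k < M := pos_lt hB2 hQ k h1
      simp only at h1 h2
      rw [h2, ψ1 a k (by omega)]
      have h4 : P ≤ a := by
        by_contra hlt
        have : (a + 1) * M ≤ P * M := Nat.mul_le_mul_right _ (by omega)
        nlinarith
      obtain ⟨c, rfl⟩ := Nat.exists_eq_add_of_le h4
      rw [pow_add, mul_assoc, hΦ]
    · exact ψ2 _ h
  set W := expand ℝ M w with hW
  set y : ℝ[X] := C (1 / (m : ℝ)) * ∑ j, X ^ gen B m j with hy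
  have avg : ∀ (p : ℕ) (g : ℝ[X]), Ψ (X ^ p * (g * y)) =
      (1 / (m : ℝ)) * ∑ j, Ψ (X ^ (p + gen B m j) * g) := by
    intro p g
    have : X ^ p * (g * y) = (1 / (m : ℝ)) • ∑ j, X ^ (p + gen B m j) * g := by
      rw [hy, smul_eq_C_mul]
      simp only [mul_sum]
      exact sum_congr rfl fun j _ => by ring
    rw [this, map_smul, map_sum, smul_eq_mul]
  have F1 : ∀ (j a r : ℕ) (k : Fin m → ℕ), ∑ i, k i + j < B →
      Ψ (X ^ (a * M + pos B m k) * (W ^ r * y ^ j)) = Φ (X ^ a * w ^ (r + ∑ i, k i + j)) := by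
    intro j
    induction j with
    | zero =>
      intro a r k hk
      rw [pow_zero, mul_one, hW, ← map_pow, E1 a k hk, add_zero, pow_add, mul_assoc]
    | succ j ih =>
      intro a r k hk
      rw [pow_succ, ← mul_assoc (W ^ r), avg]
      have : ∀ i, Ψ (X ^ (a * M + pos B m k + gen B m i) * (W ^ r * y ^ j)) =
          Φ (X ^ a * w ^ (r + ∑ i, k i + (j + 1))) := by
        intro i
        rw [add_assoc, ← pos_add_single, ih a r _ (by rw [deg_add_single]; omega), deg_add_single]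
        congr 3
        omega
      simp only [this, sum_const, card_univ, Fintype.card_fin, nsmul_eq_mul]
      field_simp
  have F0 : ∀ (j p r : ℕ), |Ψ (X ^ p * (W ^ r * y ^ j))| ≤ 1 := by
    intro j
    induction j with
    | zero =>
      intro p r
      by_cases h : cone p
      · obtain ⟨⟨a, k⟩, h1, rfl⟩ := h
        simp only at h1 ⊢
        rw [F1 0 a r k (by omega)]
        exact hbd _ _
      · rw [pow_zero, mul_one, hW, ← map_pow, E2 p h]
        simp
    | succ j ih =>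
      intro p r
      rw [pow_succ, ← mul_assoc (W ^ r), avg, abs_mul, abs_of_pos (by positivity)]
      have : |∑ i, Ψ (X ^ (p + gen B m i) * (W ^ r * y ^ j))| ≤ m := by
        refine (abs_sum_le_sum_abs _ _).trans ((sum_le_sum fun i _ => ih _ r).trans ?_)
        simp
      rw [one_div, inv_mul_le_iff₀ hmR, mul_one]
      exact this
  have one : ∀ p, ¬ cone p → ∀ i i', cone (p + gen B m i) → cone (p + gen B m i') → i = i' := by
    intro p hp i i' h h'
    obtain ⟨⟨a, k⟩, h1, h2⟩ := h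
    obtain ⟨⟨a', k'⟩, h1', h2'⟩ := h'
    simp only at h1 h2 h1' h2'
    by_contra hii
    have e : a * M + pos B m (k + Pi.single i' 1) = a' * M + pos B m (k' + Pi.single i 1) := by
      rw [pos_add_single, pos_add_single]; omega
    have e2 := (indep hQ0 _ _ _ _ (by rw [deg_add_single]; omega)
      (by rw [deg_add_single]; omega) e).1
    have e3 := congrFun e2 i
    simp only [Pi.add_apply, Pi.single_eq_same, Pi.single_eq_of_ne hii] at e3
    let k0 : Fin m → ℕ := Function.update k i (k' i)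
    have e4 : k = k0 + Pi.single i 1 := by
      funext l
      by_cases hl : l = i
      · subst hl; simp [k0]; omega
      · simp [k0, hl]
    rw [e4, pos_add_single] at h2
    rw [e4, deg_add_single] at h1
    exact hp ⟨(a, k0), by simp only; omega, by simp only; omega⟩
  have F2 : ∀ (j p r : ℕ), ¬ cone p → |Ψ (X ^ p * (W ^ r * y ^ j))| ≤ j / m := by
    intro j
    induction j with
    | zero =>
      intro p r h
      rw [pow_zero, mul_one, hW, ← map_pow, E2 p h]
      simp
    | succ j ih =>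
      intro p r h
      rw [pow_succ, ← mul_assoc (W ^ r), avg, abs_mul, abs_of_pos (by positivity)]
      have h1 : ∀ i, |Ψ (X ^ (p + gen B m i) * (W ^ r * y ^ j))| ≤
          j / m + if cone (p + gen B m i) then 1 else 0 := by
        intro i
        split_ifs with hc
        · have := F0 j (p + gen B m i) r
          have h0 : (0 : ℝ) ≤ j / m := by positivity
          linarith
        · simpa using ih _ r hc
      have h2 : ∑ i : Fin m, (if cone (p + gen B m i) then (1 : ℝ) else 0) ≤ 1 := by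
        rw [sum_boole]
        exact_mod_cast card_le_one.2 fun i hi i' hi' =>
          one p h i i' (mem_filter.1 hi).2 (mem_filter.1 hi').2
      have : |∑ i, Ψ (X ^ (p + gen B m i) * (W ^ r * y ^ j))| ≤ j + 1 := by
        refine (abs_sum_le_sum_abs _ _).trans ((sum_le_sum fun i _ => h1 i).trans ?_)
        rw [sum_add_distrib]
        simp only [sum_const, card_univ, Fintype.card_fin, nsmul_eq_mul]
        rw [mul_div_cancel₀ _ hmR.ne']
        linarith
      rw [one_div, inv_mul_eq_div]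
      push_cast
      exact div_le_div_of_nonneg_right this hmR.le
  have split : ∀ (p r j i : ℕ), Ψ (X ^ p * (W ^ r * y ^ j * (W - y) ^ (i + 1))) =
      Ψ (X ^ p * (W ^ (r + 1) * y ^ j * (W - y) ^ i)) -
        Ψ (X ^ p * (W ^ r * y ^ (j + 1) * (W - y) ^ i)) := by
    intro p r j i
    rw [← map_sub]
    congr 1
    ring
  have G1 : ∀ (i j a r : ℕ) (k : Fin m → ℕ), ∑ i, k i + j + (i + 1) < B →
      Ψ (X ^ (a * M + pos B m k) * (W ^ r * y ^ j * (W - y) ^ (i + 1))) = 0 := by
    intro i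
    induction i with
    | zero =>
      intro j a r k hk
      rw [split, pow_zero, mul_one, mul_one, F1 j a _ k (by omega), F1 (j + 1) a _ k (by omega)]
      rw [sub_eq_zero]
      congr 3
      omega
    | succ i ih =>
      intro j a r k hk
      rw [split, ih j a _ k (by omega), ih (j + 1) a _ k (by omega), sub_zero]
  have G2 : ∀ (i j p r : ℕ), ¬ cone p →
      |Ψ (X ^ p * (W ^ r * y ^ j * (W - y) ^ i))| ≤ 2 ^ i * ((j + i) / m) := by
    intro i
    induction i with
    | zero => intro j p r h; simpa using F2 j p r h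
    | succ i ih =>
      intro j p r h
      rw [split]
      have h1 := ih j p (r + 1) h
      have h2 := ih (j + 1) p r h
      have h3 : (2 : ℝ) ^ i * ((j + i) / m) ≤ 2 ^ i * ((j + 1 + i) / m) := by gcongr; linarith
      refine (abs_sub _ _).trans ?_
      push_cast at h2 ⊢
      have h4 : (2 : ℝ) ^ (i + 1) * ((j + (i + 1)) / m) = 2 * (2 ^ i * ((j + 1 + i) / m)) := by ring
      linarith
  refine ⟨M, m, gen B m, Ψ, Dvd.intro _ rfl, hM0, hm0, fun i => ⟨?_, ?_⟩, fun g => ?_, Z, ?_⟩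
  · unfold gen; omega
  · refine lt_of_lt_of_le (gen_lt hB2 i) (Nat.mul_le_mul_right _ (by omega))
  · have := E1 0 0 (by simp; omega) g
    simpa [pos] using this
  · intro p i
    rw [← hy]
    have e : X ^ p * (C 2 * (W - y)) ^ i = (2 : ℝ) ^ i • (X ^ p * (W ^ 0 * y ^ 0 * (W - y) ^ i)) := by
      rw [smul_eq_C_mul, map_pow, mul_pow]; ring
    rw [e, map_smul, smul_eq_mul, abs_mul, abs_of_pos (by positivity)]
    by_cases hi : J ≤ i
    · have d1 : X ^ (B ^ m) ∣ W - y := by
        apply dvd_sub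
        · obtain ⟨c, hc⟩ := hw
          rw [hW, hc, map_mul, expand_X]
          exact (pow_dvd_pow X (Nat.le_mul_of_pos_left _ hQ0)).mul_right _
        · exact Dvd.dvd.mul_left (dvd_sum fun j _ => pow_dvd_pow X (Nat.le_add_right _ _)) _
      have d2 : X ^ (P * M) ∣ (W - y) ^ i := by
        have : P * M = B ^ m * J := by rw [hM, hJ]; ring
        rw [this, pow_mul]
        exact (pow_dvd_pow_of_dvd d1 J).trans (pow_dvd_pow _ hi)
      obtain ⟨c, hc⟩ := d2
      have : X ^ p * (W ^ 0 * y ^ 0 * (W - y) ^ i) = X ^ (P * M) * (X ^ p * c) := by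
        rw [hc]; ring
      rw [this, Z]
      simp
    · push Not at hi
      by_cases h : cone p
      · obtain ⟨⟨a, k⟩, h1, rfl⟩ := h
        simp only at h1 ⊢
        cases i with
        | zero => simpa using F0 0 (a * M + pos B m k) 0
        | succ i => rw [G1 i 0 a 0 k (by omega)]; simp
      · have h1 := G2 i 0 p 0 h
        have h2 : (2 : ℝ) ^ i * (2 ^ i * ((((0 : ℕ) : ℝ) + i) / m)) ≤ 1 := by
          rw [← mul_assoc, ← mul_pow, ← mul_div_assoc, div_le_one hmR, hm]
          push_cast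
          have h3 : ((2 : ℝ) * 2) ^ i ≤ 4 ^ J := by
            norm_num
            exact pow_le_pow_right₀ (by norm_num) hi.le
          have h4 : (0 : ℝ) + i ≤ J := by
            rw [zero_add]; exact_mod_cast hi.le
          rw [mul_comm]
          gcongr
        exact le_trans (by gcongr) h2

end Pool.Agent.P.MP_97b573_an
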