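import Mathlib
import Pool.Agent.P.MP_97b573_an.Step

set_option autoImplicit false

namespace Pool.Agent.P.MP_97b573_an

open Polynomial Finset Filter Topology

/-- One level of the tower. -/
structure Stage where
  P : ℕ
  Φ : ℝ[X] →ₗ[ℝ] ℝ
  w : ℝ[X]
  hP : 2 ≤ P
  hw : X ∣ w
  hΦ : ∀ g, Φ (X ^ P * g) = 0
  hbd : ∀ a i, |Φ (X ^ a * w ^ i)| ≤ 1

/-- The data linking two consecutive levels. -/
structure Link (n : ℕ) (s : Stage) where
  nxt : Stage
  M : ℕ
  m : ℕ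
  u : Fin m → ℕ
  hn : (n + 1) ∣ M
  hM : 0 < M
  hm : 0 < m
  hu : ∀ i, 0 < u i ∧ u i < M
  hP : nxt.P = s.P * M
  hΦ : ∀ g, nxt.Φ (expand ℝ M g) = s.Φ g
  hw : nxt.w = C 2 * (expand ℝ M s.w - C (1 / (m : ℝ)) * ∑ j, X ^ u j)

theorem link_nonempty (n : ℕ) (s : Stage) : Nonempty (Link n s) := by
  have hP := s.hP
  obtain ⟨M, m, u, Ψ, h1, h2, h3, h4, h5, h6, h7⟩ := step s.P (2 * s.P * (n + 1)) (by omega)
    (Nat.le_mul_of_pos_right _ (by omega)) s.Φ s.w s.hw s.hΦ s.hbd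
  refine ⟨⟨⟨s.P * M, Ψ, _, le_trans hP (Nat.le_mul_of_pos_right _ h2), ?_, h6, h7⟩, M, m, u,
    (Dvd.intro_left _ rfl).trans h1, h2, h3, h4, rfl, h5, rfl⟩⟩
  apply Dvd.dvd.mul_left
  apply dvd_sub
  · obtain ⟨c, hc⟩ := s.hw
    rw [hc, map_mul, expand_X]
    exact (dvd_pow_self X h2.ne').mul_right _
  · exact Dvd.dvd.mul_left (dvd_sum fun j _ => dvd_pow_self X (h4 j).1.ne') _

/-- The first level. -/
noncomputable def stage0 : Stage where
  P := 2
  Φ := lcoeff ℝ 1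
  w := X
  hP := le_rfl
  hw := dvd_rfl
  hΦ := fun g => by simp [coeff_X_pow_mul']
  hbd := fun a i => by
    rw [← pow_add, lcoeff_apply, coeff_X_pow]
    split_ifs <;> simp

/-- The tower. -/
noncomputable def tower : ℕ → Stage
  | 0 => stage0
  | n + 1 => (link_nonempty n (tower n)).some.nxt

/-- The links of the tower. -/
noncomputable def lk (n : ℕ) : Link n (tower n) := (link_nonempty n (tower n)).some

theorem tower_succ (n : ℕ) : tower (n + 1) = (lk n).nxt := rfl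

theorem P_pos (n : ℕ) : 0 < (tower n).P := lt_of_lt_of_le (by norm_num) (tower n).hP

theorem tower_le {n N : ℕ} (h : n ≤ N) : ∃ c, 0 < c ∧ (tower N).P = (tower n).P * c ∧
    ∀ g, (tower N).Φ (expand ℝ c g) = (tower n).Φ g := by
  induction N, h using Nat.le_induction with
  | base => exact ⟨1, one_pos, by simp, by simp⟩
  | succ N _ ih =>
    obtain ⟨c, h0, h1, h2⟩ := ih
    refine ⟨(lk N).M * c, Nat.mul_pos (lk N).hM h0, ?_, fun g => ?_⟩
    · rw [tower_succ, (lk N).hP, h1]; ring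
    · rw [tower_succ, expand_mul, (lk N).hΦ, h2]

theorem exists_level (s : ℚ) (hs : 0 ≤ s) : ∃ n a : ℕ, s = (a : ℚ) / ((tower n).P : ℚ) := by
  obtain ⟨d, hd⟩ : ∃ d, s.den = d + 1 := Nat.exists_eq_succ_of_ne_zero s.den_nz
  obtain ⟨c, hc⟩ := (lk d).hn
  have hP := P_pos (d + 1)
  have e : (tower (d + 1)).P = s.den * ((tower d).P * c) := by
    rw [tower_succ, (lk d).hP, hc, hd]; ring
  refine ⟨d + 1, s.num.toNat * ((tower d).P * c), ?_⟩
  have h0 : ((tower d).P * c : ℕ) ≠ 0 := by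
    intro h; rw [e, h] at hP; simp at hP
  have h1 : ((s.num.toNat : ℕ) : ℚ) = (s.num : ℚ) := by
    have := Int.toNat_of_nonneg (Rat.num_nonneg.2 hs)
    exact_mod_cast this
  rw [e, Nat.cast_mul, Nat.cast_mul s.den, mul_div_mul_right _ _ (by exact_mod_cast h0), h1,
    Rat.num_div_den]

open Classical in
/-- The limiting functional. -/
noncomputable def phi (q : ℚ) : ℝ :=
  if h : ∃ t : ℕ × ℕ, q = (t.2 : ℚ) / ((tower t.1).P : ℚ) then
    (tower h.choose.1).Φ (X ^ h.choose.2) else 0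

theorem consistent {n N a b : ℕ} (h : n ≤ N)
    (e : (a : ℚ) / ((tower n).P : ℚ) = (b : ℚ) / ((tower N).P : ℚ)) :
    (tower n).Φ (X ^ a) = (tower N).Φ (X ^ b) := by
  obtain ⟨c, h0, h1, h2⟩ := tower_le h
  have hn : ((tower n).P : ℚ) ≠ 0 := by exact_mod_cast (P_pos n).ne'
  have hc : (c : ℚ) ≠ 0 := by exact_mod_cast h0.ne'
  rw [h1] at e
  push_cast at e
  field_simp at e
  have e' : b = c * a := by
    have : (b : ℚ) = c * a := by linarith
    exact_mod_cast this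
  rw [← h2, e', map_pow, expand_X, pow_mul]

theorem phi_eq (n a : ℕ) : phi ((a : ℚ) / ((tower n).P : ℚ)) = (tower n).Φ (X ^ a) := by
  have h : ∃ t : ℕ × ℕ, (a : ℚ) / ((tower n).P : ℚ) = (t.2 : ℚ) / ((tower t.1).P : ℚ) :=
    ⟨(n, a), rfl⟩
  rw [phi, dif_pos h]
  rcases le_total n h.choose.1 with h1 | h1
  · exact (consistent h1 h.choose_spec).symm
  · exact consistent h1 h.choose_spec.symm

theorem phi_le (q : ℚ) : |phi q| ≤ 1 := by
  unfold phi
  split_ifs with h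
  · simpa using (tower h.choose.1).hbd h.choose.2 0
  · simp

theorem phi_zero (q : ℚ) (hq : 1 ≤ q) : phi q = 0 := by
  obtain ⟨n, a, rfl⟩ := exists_level q (by linarith)
  rw [phi_eq]
  have hn : (0 : ℚ) < ((tower n).P : ℚ) := by exact_mod_cast P_pos n
  rw [le_div_iff₀ hn, one_mul] at hq
  obtain ⟨c, rfl⟩ := Nat.exists_eq_add_of_le (show (tower n).P ≤ a by exact_mod_cast hq)
  rw [pow_add, (tower n).hΦ]

theorem phi_half : phi (1 / 2) = 1 := by
  have := phi_eq 0 1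
  simpa [tower, stage0] using this

/-- Evaluation of a polynomial against a function on the rationals. -/
noncomputable def ev (P : ℕ) (ψ : ℚ → ℝ) : ℝ[X] →ₗ[ℝ] ℝ :=
  (basisMonomials ℝ).constr ℝ fun k => ψ ((k : ℚ) / (P : ℚ))

theorem ev_pow (P : ℕ) (ψ : ℚ → ℝ) (k : ℕ) : ev P ψ (X ^ k) = ψ ((k : ℚ) / (P : ℚ)) := by
  have := (basisMonomials ℝ).constr_basis ℝ (fun k : ℕ => ψ ((k : ℚ) / (P : ℚ))) k
  rw [coe_basisMonomials] at this
  rw [← monomial_one_right_eq_X_pow]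
  exact this

theorem lin_ext (F G : ℝ[X] →ₗ[ℝ] ℝ) (h : ∀ n, F (X ^ n) = G (X ^ n)) (g : ℝ[X]) : F g = G g := by
  induction g using Polynomial.induction_on' with
  | add p q hp hq => rw [map_add, map_add, hp, hq]
  | monomial n c => rw [← smul_X_eq_monomial, map_smul, map_smul, h]

theorem ev_expand (P M : ℕ) (hM : 0 < M) (ψ : ℚ → ℝ) (g : ℝ[X]) :
    ev (P * M) ψ (expand ℝ M g) = ev P ψ g := by
  apply lin_ext (ev (P * M) ψ ∘ₗ (expand ℝ M).toLinearMap) (ev P ψ)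
  intro n
  simp only [LinearMap.comp_apply, AlgHom.toLinearMap_apply, map_pow, expand_X]
  rw [← pow_mul, ev_pow, ev_pow]
  congr 1
  have : (M : ℚ) ≠ 0 := by exact_mod_cast hM.ne'
  push_cast
  rw [mul_comm (M : ℚ), mul_div_mul_right _ _ this]

/-- The points of level `n + 1`. -/
noncomputable def pt (n : ℕ) (i : Fin (lk n).m) : ℚ := ((lk n).u i : ℚ) / ((tower (n + 1)).P : ℚ)

theorem pt_bounds (n : ℕ) (i : Fin (lk n).m) : 0 < pt n i ∧ pt n i < 1 / 2 := by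
  have h1 : (0 : ℚ) < ((tower (n + 1)).P : ℚ) := by exact_mod_cast P_pos (n + 1)
  obtain ⟨h2, h3⟩ := (lk n).hu i
  constructor
  · exact div_pos (by exact_mod_cast h2) h1
  · rw [pt, div_lt_div_iff₀ h1 (by norm_num), tower_succ, (lk n).hP]
    have h4 := Nat.mul_le_mul_right (lk n).M (tower n).hP
    have : (lk n).u i * 2 < 1 * ((tower n).P * (lk n).M) := by omega
    exact_mod_cast this

theorem ev_w (ψ : ℚ → ℝ) (N : ℕ) : ev (tower N).P ψ (tower N).w =
    2 ^ N * (ψ (1 / 2) - ∑ n ∈ range N, (1 / 2) ^ n * ((1 / ((lk n).m : ℝ)) * ∑ i, ψ (pt n i))) := by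
  induction N with
  | zero =>
    have := ev_pow 2 ψ 1
    simpa [tower, stage0] using this
  | succ N ih =>
    have e : ev (tower (N + 1)).P ψ (tower (N + 1)).w =
        2 * (ev (tower N).P ψ (tower N).w - (1 / ((lk N).m : ℝ)) * ∑ i, ψ (pt N i)) := by
      have h1 : (tower (N + 1)).w = (2 : ℝ) • (expand ℝ (lk N).M (tower N).w -
          (1 / ((lk N).m : ℝ)) • ∑ j, X ^ (lk N).u j) := by
        rw [tower_succ, (lk N).hw, smul_eq_C_mul, smul_eq_C_mul]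
      have h2 : (tower (N + 1)).P = (tower N).P * (lk N).M := (lk N).hP
      rw [h1, map_smul, map_sub, map_smul, map_sum, smul_eq_mul, smul_eq_mul]
      simp only [ev_pow, pt]
      rw [h2, ev_expand _ _ (lk N).hM]
    rw [e, ih, sum_range_succ]
    have : (2 : ℝ) ^ N * (1 / 2) ^ N = 1 := by rw [← mul_pow]; norm_num
    linear_combination (2 * ((1 / ((lk N).m : ℝ)) * ∑ i, ψ (pt N i))) * this

theorem Phi_ev (N a : ℕ) (g : ℝ[X]) : (tower N).Φ (X ^ a * g) =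
    ev (tower N).P (fun q => phi ((a : ℚ) / ((tower N).P : ℚ) + q)) g := by
  apply lin_ext ((tower N).Φ ∘ₗ LinearMap.mulLeft ℝ (X ^ a))
  intro n
  simp only [LinearMap.comp_apply, LinearMap.mulLeft_apply]
  rw [ev_pow, ← pow_add, ← phi_eq, ← add_div]
  push_cast
  rfl

theorem core : ∃ (m : ℕ → ℕ) (t : (n : ℕ) → Fin (m n) → ℚ) (φ : ℚ → ℝ), (∀ n, 0 < m n) ∧
    (∀ n i, 0 < t n i ∧ t n i < 1 / 2) ∧ (∀ q, |φ q| ≤ 1) ∧ (∀ q, 1 ≤ q → φ q = 0) ∧
    φ (1 / 2) = 1 ∧ ∀ s : ℚ, 0 ≤ s → Tendsto (fun N => ∑ n ∈ range N,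
      (1 / 2 : ℝ) ^ n * ((1 / (m n : ℝ)) * ∑ i, φ (s + t n i))) atTop (𝓝 (φ (s + 1 / 2))) := by
  refine ⟨fun n => (lk n).m, pt, phi, fun n => (lk n).hm, pt_bounds, phi_le, phi_zero, phi_half,
    fun s hs => ?_⟩
  obtain ⟨n, a, hs⟩ := exists_level s hs
  rw [tendsto_iff_norm_sub_tendsto_zero]
  refine squeeze_zero' (Eventually.of_forall fun _ => norm_nonneg _) ?_
    (tendsto_pow_atTop_nhds_zero_of_lt_one (r := (1 / 2 : ℝ)) (by norm_num) (by norm_num))
  filter_upwards [eventually_ge_atTop n] with N hN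
  obtain ⟨c, h0, h1, -⟩ := tower_le hN
  have hc : (c : ℚ) ≠ 0 := by exact_mod_cast h0.ne'
  have e : s = ((a * c : ℕ) : ℚ) / ((tower N).P : ℚ) := by
    rw [hs, h1]
    push_cast
    rw [mul_div_mul_right _ _ hc]
  have h2 := (tower N).hbd (a * c) 1
  rw [pow_one, Phi_ev, ev_w, ← e, abs_mul, abs_of_pos (by positivity)] at h2
  rw [Real.norm_eq_abs, abs_sub_comm, one_div_pow, le_div_iff₀ (by positivity), mul_comm]
  exact h2

end Pool.Agent.P.MP_97b573_an
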