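import Mathlib
import Pool.Agent.P.MP_97b573_an.Core

set_option autoImplicit false

namespace Pool.Agent.P.MP_97b573_an

open Finset Filter Topology

theorem pair : ∃ (g φ : ℚ → ℝ), (∀ q, 0 ≤ g q) ∧ Summable g ∧ (∀ q, q ≤ 0 → g q = 0) ∧
    (∀ q, 1 / 2 ≤ q → g q = 0) ∧ (∀ q, |φ q| ≤ 1) ∧ (∀ q, 1 ≤ q → φ q = 0) ∧ φ (1 / 2) = 1 ∧
    ∀ s : ℚ, 0 ≤ s → HasSum (fun q => g q * φ (q + s)) (φ (1 / 2 + s)) := by
  obtain ⟨m, t, φ, hm, ht, h1, h2, h3, h4⟩ := core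
  let c : (Σ n, Fin (m n)) → ℝ := fun b => (1 / 2 : ℝ) ^ b.1 * (1 / (m b.1 : ℝ))
  let π : (Σ n, Fin (m n)) → ℚ := fun b => t b.1 b.2
  have hc0 : ∀ b, 0 ≤ c b := fun b => by positivity
  have hc : Summable c := by
    rw [summable_sigma_of_nonneg hc0]
    refine ⟨fun n => (hasSum_fintype _).summable, ?_⟩
    refine (summable_geometric_two).congr fun n => ?_
    have : (m n : ℝ) ≠ 0 := by exact_mod_cast (hm n).ne'
    rw [tsum_fintype]
    simp only [c, sum_const, card_univ, Fintype.card_fin, nsmul_eq_mul]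
    field_simp
  let g : ℚ → ℝ := fun q => ∑' b : π ⁻¹' {q}, c b
  have hg0 : ∀ q, (∀ b, π b ≠ q) → g q = 0 := by
    intro q hq
    have : IsEmpty (π ⁻¹' {q}) := ⟨fun b => hq b b.2⟩
    exact tsum_empty
  refine ⟨g, φ, fun q => tsum_nonneg fun b => hc0 b, (hc.hasSum.tsum_fiberwise π).summable,
    fun q hq => hg0 q fun b hb => ?_, fun q hq => hg0 q fun b hb => ?_, h1, h2, h3,
    fun s hs => ?_⟩
  · have := (ht b.1 b.2).1
    simp only [π] at hb
    linarith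
  · have := (ht b.1 b.2).2
    simp only [π] at hb
    linarith
  · have s1 : Summable fun b => c b * φ (π b + s) := by
      refine Summable.of_norm_bounded hc fun b => ?_
      rw [Real.norm_eq_abs, abs_mul, abs_of_nonneg (hc0 b)]
      exact mul_le_of_le_one_right (hc0 b) (h1 _)
    have s2 := s1.hasSum.sigma (g := fun n => (1 / 2 : ℝ) ^ n *
        ((1 / (m n : ℝ)) * ∑ i, φ (s + t n i))) (fun n => by
      have := hasSum_fintype (fun i : Fin (m n) => c ⟨n, i⟩ * φ (π ⟨n, i⟩ + s))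
      convert this using 1
      simp only [c, π, mul_sum, add_comm s, mul_assoc])
    have s3 := tendsto_nhds_unique s2.tendsto_sum_nat (h4 s hs)
    have s4 := s1.hasSum.tsum_fiberwise π
    rw [s3, add_comm] at s4
    have e : (fun q => g q * φ (q + s)) = fun q => ∑' b : π ⁻¹' {q}, c b * φ (π b + s) := by
      funext q
      rw [← tsum_mul_right]
      refine tsum_congr fun b => ?_
      have : π b = q := b.2
      rw [this]
    rw [e]
    exact s4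

theorem weight_bdd (ω : ℚ → ℝ) (hpos : ∀ q, 0 < q → 0 < ω q)
    (hsub : ∀ s t, 0 < s → 0 < t → ω (s + t) ≤ ω s * ω t)
    (hbd : ∃ ε : ℚ, 0 < ε ∧ ∃ K : ℝ, ∀ q, 0 < q → q < ε → ω q ≤ K) :
    ∃ K : ℝ, 0 < K ∧ ∀ q, 0 < q → q ≤ 1 → ω q ≤ K := by
  obtain ⟨ε, hε, K, hK⟩ := hbd
  obtain ⟨N, hN⟩ := exists_nat_one_div_lt hε
  have hpow : ∀ (r : ℚ), 0 < r → ∀ n : ℕ, ω (((n : ℚ) + 1) * r) ≤ ω r ^ (n + 1) := by
    intro r hr n
    induction n with
    | zero => simp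
    | succ n ih =>
      have e : (((n + 1 : ℕ) : ℚ) + 1) * r = ((n : ℚ) + 1) * r + r := by push_cast; ring
      rw [e, pow_succ]
      exact (hsub _ _ (by positivity) hr).trans (mul_le_mul_of_nonneg_right ih (hpos r hr).le)
  have key : ∀ q, 0 < q → q ≤ 1 → ω q ≤ K ^ (N + 1) := by
    intro q h0 h1
    have hN0 : (0 : ℚ) < (N : ℚ) + 1 := by positivity
    have h2 := hpow (q / ((N : ℚ) + 1)) (by positivity) N
    rw [mul_div_cancel₀ _ hN0.ne'] at h2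
    refine h2.trans (pow_le_pow_left₀ (hpos _ (by positivity)).le (hK _ (by positivity) ?_) _)
    exact lt_of_le_of_lt (div_le_div_of_nonneg_right h1 hN0.le) hN
  exact ⟨K ^ (N + 1), lt_of_lt_of_le (hpos 1 one_pos) (key 1 one_pos le_rfl), key⟩

theorem main (ω : ℚ → ℝ) (hpos : ∀ q, 0 < q → 0 < ω q)
    (hsub : ∀ s t, 0 < s → 0 < t → ω (s + t) ≤ ω s * ω t)
    (hbd : ∃ ε : ℚ, 0 < ε ∧ ∃ K : ℝ, ∀ q, 0 < q → q < ε → ω q ≤ K) :
    ∃ I : Set (ℚ → ℂ),
      (∀ f ∈ I, (∀ q : ℚ, q ≤ 0 → f q = 0) ∧ Summable (fun q : ℚ => ‖f q‖ * ω q)) ∧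
      (0 : ℚ → ℂ) ∈ I ∧
      (∀ f ∈ I, ∀ g ∈ I, f + g ∈ I) ∧
      (∀ c : ℂ, ∀ f ∈ I, c • f ∈ I) ∧
      (∀ a : ℚ → ℂ, (∀ q : ℚ, q ≤ 0 → a q = 0) → Summable (fun q : ℚ => ‖a q‖ * ω q) →
        ∀ f ∈ I, (fun t : ℚ => ∑' s : ℚ, a s * f (t - s)) ∈ I) ∧
      (∀ f : ℚ → ℂ, (∀ q : ℚ, q ≤ 0 → f q = 0) → Summable (fun q : ℚ => ‖f q‖ * ω q) →
        (∀ ε : ℝ, 0 < ε → ∃ g ∈ I, ∑' q : ℚ, ‖f q - g q‖ * ω q < ε) → f ∈ I) ∧
      I ≠ {(0 : ℚ → ℂ)} ∧
      ∀ α : ℝ, 0 ≤ α →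
        I ≠ {f : ℚ → ℂ | (∀ q : ℚ, q ≤ 0 → f q = 0) ∧ Summable (fun q : ℚ => ‖f q‖ * ω q) ∧
              ∀ q : ℚ, (q : ℝ) < α → f q = 0} ∧
        I ≠ {f : ℚ → ℂ | (∀ q : ℚ, q ≤ 0 → f q = 0) ∧ Summable (fun q : ℚ => ‖f q‖ * ω q) ∧
              ∀ q : ℚ, (q : ℝ) ≤ α → f q = 0} := by
  classical
  obtain ⟨K, hK0, hK⟩ := weight_bdd ω hpos hsub hbd
  obtain ⟨g, φ, g0, gs, g1, g2, p1, p2, p3, p4⟩ := pair
  have hω1 := hpos 1 one_pos
  set C : ℝ := K / ω 1 with hC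
  have hC0 : 0 < C := div_pos hK0 hω1
  have hφ : ∀ q s : ℚ, 0 < q → 0 ≤ s → ‖(φ (q + s) : ℂ)‖ ≤ C * ω q := by
    intro q s hq hs
    rw [Complex.norm_real, Real.norm_eq_abs]
    by_cases h : 1 ≤ q
    · rw [p2 _ (by linarith), abs_zero]
      exact (mul_pos hC0 (hpos q hq)).le
    · refine (p1 _).trans ?_
      push Not at h
      have h1 := hsub q (1 - q) hq (by linarith)
      rw [add_sub_cancel] at h1
      have h2 := hK (1 - q) (by linarith) (by linarith)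
      have h3 := hpos q hq
      rw [hC, div_mul_eq_mul_div, le_div_iff₀ hω1]
      nlinarith
  have nn : ∀ h : ℚ → ℂ, (∀ q : ℚ, q ≤ 0 → h q = 0) → ∀ q, 0 ≤ ‖h q‖ * ω q := by
    intro h h0 q
    rcases le_or_gt q 0 with hq | hq
    · simp [h0 q hq]
    · exact mul_nonneg (norm_nonneg _) (hpos q hq).le
  have bd : ∀ h : ℚ → ℂ, (∀ q : ℚ, q ≤ 0 → h q = 0) → ∀ s : ℚ, 0 ≤ s → ∀ q,
      ‖h q * (φ (q + s) : ℂ)‖ ≤ C * (‖h q‖ * ω q) := by
    intro h h0 s hs q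
    rcases le_or_gt q 0 with hq | hq
    · simp [h0 q hq]
    · rw [norm_mul, mul_left_comm]
      exact mul_le_mul_of_nonneg_left (hφ q s hq hs) (norm_nonneg _)
  have sm : ∀ h : ℚ → ℂ, (∀ q : ℚ, q ≤ 0 → h q = 0) → Summable (fun q : ℚ => ‖h q‖ * ω q) →
      ∀ s : ℚ, 0 ≤ s → Summable fun q => h q * (φ (q + s) : ℂ) :=
    fun h h0 h1 s hs => Summable.of_norm_bounded (h1.mul_left C) (bd h h0 s hs)
  have sadd : ∀ f h : ℚ → ℂ, (∀ q : ℚ, q ≤ 0 → f q = 0) → (∀ q : ℚ, q ≤ 0 → h q = 0) →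
      Summable (fun q : ℚ => ‖f q‖ * ω q) → Summable (fun q : ℚ => ‖h q‖ * ω q) →
      ∀ k : ℚ → ℂ, (∀ q : ℚ, q ≤ 0 → k q = 0) → (∀ q, ‖k q‖ ≤ ‖f q‖ + ‖h q‖) →
      Summable (fun q : ℚ => ‖k q‖ * ω q) := by
    intro f h f0 h0 f1 h1 k k0 k1
    refine Summable.of_nonneg_of_le (nn k k0) (fun q => ?_) (f1.add h1)
    rcases le_or_gt q 0 with hq | hq
    · simp [h0 q hq, f0 q hq, k0 q hq]
    · rw [← add_mul]
      exact mul_le_mul_of_nonneg_right (k1 q) (hpos q hq).le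
  let I : Set (ℚ → ℂ) := {h | (∀ q : ℚ, q ≤ 0 → h q = 0) ∧ Summable (fun q : ℚ => ‖h q‖ * ω q) ∧
    ∀ s : ℚ, 0 ≤ s → ∑' q, h q * (φ (q + s) : ℂ) = 0}
  let δ : ℚ → ℂ := fun q => if q = 1 / 2 then 1 else 0
  have δ0 : ∀ q : ℚ, q ≤ 0 → δ q = 0 := fun q hq => if_neg (by linarith)
  have δ1 : Summable (fun q : ℚ => ‖δ q‖ * ω q) :=
    summable_of_ne_finset_zero (s := {1 / 2}) fun q hq => by
      simp only [δ, if_neg (notMem_singleton.1 hq), norm_zero, zero_mul]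
  have δ2 : ∀ s, ∑' q, δ q * (φ (q + s) : ℂ) = φ (1 / 2 + s) := by
    intro s
    rw [tsum_eq_single (1 / 2)]
    · simp only [δ, if_true, one_mul]
    · intro q hq
      simp only [δ, if_neg hq, zero_mul]
  have δI : δ ∉ I := by
    intro h
    have := h.2.2 0 le_rfl
    rw [δ2, add_zero, p3] at this
    simp at this
  have G0 : ∀ q : ℚ, q ≤ 0 → (g q : ℂ) = 0 := fun q hq => by rw [g1 q hq]; simp
  have G1 : Summable (fun q : ℚ => ‖(g q : ℂ)‖ * ω q) := by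
    refine Summable.of_nonneg_of_le (nn _ G0) (fun q => ?_) (gs.mul_right K)
    rw [Complex.norm_real, Real.norm_eq_abs, abs_of_nonneg (g0 q)]
    rcases le_or_gt q 0 with hq | hq
    · simp [g1 q hq]
    rcases le_or_gt (1 / 2) q with hq' | hq'
    · simp [g2 q hq']
    exact mul_le_mul_of_nonneg_left (hK q hq (by linarith)) (g0 q)
  let f : ℚ → ℂ := fun q => δ q - g q
  have f0 : ∀ q : ℚ, q ≤ 0 → f q = 0 := fun q hq => by simp only [f, δ0 q hq, G0 q hq, sub_zero]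
  have fI : f ∈ I := by
    refine ⟨f0, sadd δ (fun q => g q) δ0 G0 δ1 G1 f f0 fun q => norm_sub_le _ _, fun s hs => ?_⟩
    simp only [f, sub_mul]
    rw [(sm δ δ0 δ1 s hs).tsum_sub (sm _ G0 G1 s hs), δ2, sub_eq_zero]
    have := (Complex.hasSum_ofReal.2 (p4 s hs)).tsum_eq
    rw [← this]
    simp
  have fh : f (1 / 2) = 1 := by
    simp only [f, δ, if_true, g2 _ le_rfl]
    simp
  refine ⟨I, fun f hf => ⟨hf.1, hf.2.1⟩, ⟨fun _ _ => rfl, by simp,
    fun s _ => by simp⟩, ?_, ?_, ?_, ?_, ?_, ?_⟩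
  · intro f hf h hh
    have k0 : ∀ q : ℚ, q ≤ 0 → (f + h) q = 0 := fun q hq => by simp [hf.1 q hq, hh.1 q hq]
    refine ⟨k0, sadd f h hf.1 hh.1 hf.2.1 hh.2.1 _ k0 fun q => norm_add_le _ _, fun s hs => ?_⟩
    simp only [Pi.add_apply, add_mul]
    rw [(sm f hf.1 hf.2.1 s hs).tsum_add (sm h hh.1 hh.2.1 s hs), hf.2.2 s hs, hh.2.2 s hs,
      add_zero]
  · intro c f hf
    refine ⟨fun q hq => by simp [hf.1 q hq], ?_, fun s hs => ?_⟩
    · simpa only [Pi.smul_apply, norm_smul, mul_assoc] using hf.2.1.mul_left ‖c‖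
    · simp only [Pi.smul_apply, smul_eq_mul, mul_assoc]
      rw [tsum_mul_left, hf.2.2 s hs, mul_zero]
  · intro a a0 a1 h hh
    have z : ∀ t r : ℚ, t ≤ 0 → a r * h (t - r) = 0 := by
      intro t r ht
      rcases le_or_gt r 0 with hr | hr
      · rw [a0 r hr, zero_mul]
      · rw [hh.1 _ (by linarith), mul_zero]
    have S1 := a1.mul_of_nonneg hh.2.1 (nn a a0) (nn h hh.1)
    let e : ℚ × ℚ ≃ ℚ × ℚ :=
      ⟨fun p => (p.2, p.1 - p.2), fun p => (p.2 + p.1, p.1), fun p => by simp, fun p => by simp⟩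
    have S2 := (e.summable_iff.2 S1)
    have n3 : ∀ p : ℚ × ℚ, 0 ≤ ‖a p.2 * h (p.1 - p.2)‖ * ω p.1 :=
      fun p => nn (fun t => a p.2 * h (t - p.2)) (fun t ht => z t p.2 ht) p.1
    have S3 : Summable fun p : ℚ × ℚ => ‖a p.2 * h (p.1 - p.2)‖ * ω p.1 := by
      refine Summable.of_nonneg_of_le n3 (fun p => ?_) S2
      change _ ≤ ‖a p.2‖ * ω p.2 * (‖h (p.1 - p.2)‖ * ω (p.1 - p.2))
      rcases le_or_gt p.2 0 with hr | hr
      · simp [a0 _ hr]
      rcases le_or_gt (p.1 - p.2) 0 with hu | hu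
      · simp [hh.1 _ hu]
      have := hsub _ _ hr hu
      rw [add_sub_cancel] at this
      rw [norm_mul, mul_mul_mul_comm]
      exact mul_le_mul_of_nonneg_left this (by positivity)
    have c0 : ∀ t : ℚ, t ≤ 0 → ∑' r : ℚ, a r * h (t - r) = 0 := fun t ht => by
      simp only [z t _ ht, tsum_zero]
    refine ⟨c0, ?_, fun s hs => ?_⟩
    · refine Summable.of_nonneg_of_le (nn _ c0) (fun t => ?_) S3.prod
      rcases le_or_gt t 0 with ht | ht
      · simp only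
        rw [c0 t ht, norm_zero, zero_mul]
        exact tsum_nonneg fun r => n3 (t, r)
      · simp only
        rw [tsum_mul_right]
        refine mul_le_mul_of_nonneg_right (norm_tsum_le_tsum_norm ?_) (hpos t ht).le
        exact (summable_mul_right_iff (hpos t ht).ne').1 (S3.prod_factor t)
    · have S4 : Summable fun p : ℚ × ℚ => a p.2 * h (p.1 - p.2) * (φ (p.1 + s) : ℂ) :=
        Summable.of_norm_bounded (S3.mul_left C) fun p =>
          bd (fun t => a p.2 * h (t - p.2)) (fun t ht => z t p.2 ht) s hs p.1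
      simp only [← tsum_mul_right]
      rw [← Summable.tsum_comm (f := fun t r : ℚ => a r * h (t - r) * (φ (t + s) : ℂ)) S4]
      have : ∀ r : ℚ, ∑' t : ℚ, a r * h (t - r) * (φ (t + s) : ℂ) = 0 := by
        intro r
        rcases le_or_gt r 0 with hr | hr
        · simp [a0 r hr]
        · simp only [mul_assoc]
          rw [tsum_mul_left, ← (Equiv.addRight r).tsum_eq]
          simp only [Equiv.coe_addRight, add_sub_cancel_right, add_assoc]
          rw [hh.2.2 (r + s) (by linarith), mul_zero]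
      simp only [this, tsum_zero]
  · intro h h0 h1 happ
    refine ⟨h0, h1, fun s hs => ?_⟩
    refine norm_le_zero_iff.1 (le_of_forall_pos_le_add fun ε hε => ?_)
    obtain ⟨k, hk, hlt⟩ := happ (ε / C) (div_pos hε hC0)
    have d0 : ∀ q : ℚ, q ≤ 0 → h q - k q = 0 := fun q hq => by rw [h0 q hq, hk.1 q hq, sub_zero]
    have d1 := sadd h k h0 hk.1 h1 hk.2.1 _ d0 fun q => norm_sub_le _ _
    have e : ∑' q, h q * (φ (q + s) : ℂ) = ∑' q, (h q - k q) * (φ (q + s) : ℂ) := by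
      simp only [sub_mul]
      rw [(sm h h0 h1 s hs).tsum_sub (sm k hk.1 hk.2.1 s hs), hk.2.2 s hs, sub_zero]
    rw [e, zero_add]
    refine (tsum_of_norm_bounded (d1.mul_left C).hasSum (bd _ d0 s hs)).trans ?_
    rw [tsum_mul_left]
    rw [lt_div_iff₀ hC0] at hlt
    linarith
  · intro h
    rw [h] at fI
    have : f = 0 := fI
    rw [this] at fh
    simp at fh
  · intro α _
    constructor
    · intro h
      apply δI
      rw [h] at fI ⊢
      refine ⟨δ0, δ1, fun q hq => if_neg fun e => ?_⟩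
      have := fI.2.2 q hq
      rw [e, fh] at this
      exact one_ne_zero this
    · intro h
      apply δI
      rw [h] at fI ⊢
      refine ⟨δ0, δ1, fun q hq => if_neg fun e => ?_⟩
      have := fI.2.2 q hq
      rw [e, fh] at this
      exact one_ne_zero this

end Pool.Agent.P.MP_97b573_an
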