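import Mathlib

set_option autoImplicit false

/-! A weight on the rationals that grows very fast with the denominator. -/

namespace Pool.Agent.P.MP_97b573_an.Std

open Real Finset Nat

/-- `q` is a multiple of `1 / k !` -/
def Lv (k : ℕ) (q : ℚ) : Prop := ∃ m : ℤ, q * (k ! : ℚ) = m

theorem Lv.add {k : ℕ} {s t : ℚ} (h : Lv k s) (h' : Lv k t) : Lv k (s + t) := by
  obtain ⟨m, e⟩ := h
  obtain ⟨n, e'⟩ := h'
  exact ⟨m + n, by rw [add_mul, e, e', Int.cast_add]⟩

theorem Lv.sub {k : ℕ} {s t : ℚ} (h : Lv k s) (h' : Lv k t) : Lv k (s - t) := by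
  obtain ⟨m, e⟩ := h
  obtain ⟨n, e'⟩ := h'
  exact ⟨m - n, by rw [sub_mul, e, e', Int.cast_sub]⟩

theorem Lv.mono {k j : ℕ} {s : ℚ} (h : Lv k s) (hj : k ≤ j) : Lv j s := by
  obtain ⟨m, e⟩ := h
  obtain ⟨c, hc⟩ := factorial_dvd_factorial hj
  exact ⟨m * c, by rw [hc, Nat.cast_mul, ← mul_assoc, e]; simp⟩

theorem ex_Lv (q : ℚ) : ∃ k, Lv k q := by
  obtain ⟨c, hc⟩ := dvd_factorial q.den_pos le_rfl
  exact ⟨q.den, q.num * c, by rw [hc, Nat.cast_mul, ← mul_assoc, Rat.mul_den_eq_num]; simp⟩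

theorem Lv.gap {k : ℕ} {q : ℚ} (h : Lv k q) (hq : 0 < q) : (1 : ℝ) / k ! ≤ q := by
  obtain ⟨m, e⟩ := h
  have h0 : (0 : ℚ) < k ! := by positivity
  have h1 : (1 : ℤ) ≤ m := by
    have : (0 : ℚ) < m := e ▸ mul_pos hq h0
    exact_mod_cast this
  have h2 : (1 : ℚ) ≤ q * k ! := e ▸ by exact_mod_cast h1
  rw [div_le_iff₀ (by positivity)]
  exact_mod_cast h2

theorem ex_T (k : ℕ) : ∃ T : Finset ℚ, T.card ≤ k * k ! ∧ ∀ q, Lv k q → 0 < q → q ≤ k → q ∈ T := by
  have h0 : (0 : ℚ) < k ! := by positivity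
  refine ⟨(Finset.Ioc (0 : ℤ) (k * k ! : ℕ)).image fun m : ℤ => (m : ℚ) / k !,
    card_image_le.trans (by rw [Int.card_Ioc, sub_zero, Int.toNat_natCast]), ?_⟩
  rintro q ⟨m, e⟩ h1 h2
  refine mem_image.2 ⟨m, mem_Ioc.2 ⟨?_, ?_⟩, by rw [← e, mul_div_cancel_right₀ _ h0.ne']⟩
  · have : (0 : ℚ) < m := e ▸ mul_pos h1 h0
    exact_mod_cast this
  · have : (m : ℚ) ≤ k * k ! := e ▸ mul_le_mul_of_nonneg_right h2 h0.le
    exact_mod_cast this

open Classical in
/-- the level of a rational number -/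
noncomputable def lv (q : ℚ) : ℕ := Nat.find (ex_Lv q)

theorem lv_le {k : ℕ} {q : ℚ} : lv q ≤ k ↔ Lv k q := by
  classical
  exact ⟨fun h => (Nat.find_spec (ex_Lv q)).mono h, fun h => Nat.find_min' _ h⟩

/-- the cost of the pivot recursion -/
def FF (k L : ℕ) : ℕ := 3 * L * (2 * L * k) ^ (L * k * k ! ^ 2)

/-- the thresholds for the coefficients -/
def LL (k r : ℕ) : ℕ → ℕ
  | 0 => k
  | j + 1 => LL k r j + k * FF k (LL k r j) * (k * k !) * 3 ^ (r ^ 2)

/-- the heights of the levels -/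
def RR : ℕ → ℕ
  | 0 => 0
  | k + 1 => RR k + 2 + k ! * k ^ 2 * ∑ j ∈ range (k * k ! + 1), FF k (LL k (RR k) j)

theorem RR_mono : Monotone RR := monotone_nat_of_le_succ fun k => by rw [RR]; omega

/-- the bump -/
noncomputable def th (r q : ℝ) : ℝ := r * max (r - q) 0

theorem th_nonneg {r : ℝ} (h : 0 ≤ r) (q : ℝ) : 0 ≤ th r q := mul_nonneg h (le_max_right _ _)

theorem th_le {r r' q q' : ℝ} (h0 : 0 ≤ r) (h : r ≤ r') (h' : q' ≤ q) : th r q ≤ th r' q' :=
  mul_le_mul h (max_le_max (by linarith) le_rfl) (le_max_right _ _) (h0.trans h)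

/-- the weight -/
noncomputable def om (q : ℚ) : ℝ := exp (th (RR (lv q)) q - (q : ℝ) ^ 2)

theorem om_pos (q : ℚ) : 0 < om q := exp_pos _

theorem le_om (q : ℚ) : exp (-(q : ℝ) ^ 2) ≤ om q :=
  exp_le_exp.2 (by linarith [th_nonneg (Nat.cast_nonneg (RR (lv q))) q])

theorem om_le {k : ℕ} {q : ℚ} (h : Lv k q) : om q ≤ exp (th (RR k) q - (q : ℝ) ^ 2) :=
  exp_le_exp.2 (by
    linarith [th_le (q := q) (Nat.cast_nonneg _) (Nat.cast_le.2 (RR_mono (lv_le.2 h))) le_rfl])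

theorem om_le' {k : ℕ} {q : ℚ} (h : Lv k q) (h0 : 0 ≤ q) :
    om q ≤ exp ((RR k : ℝ) ^ 2 - (q : ℝ) ^ 2) := by
  refine (om_le h).trans (exp_le_exp.2 ?_)
  have := th_le (q := q) (q' := 0) (Nat.cast_nonneg (RR k)) le_rfl (by exact_mod_cast h0)
  rw [th, th, sub_zero, max_eq_left (Nat.cast_nonneg _)] at this
  rw [th]
  linarith

theorem om_add {s t : ℚ} (hs : 0 < s) (ht : 0 < t) : om (s + t) ≤ om s * om t := by
  wlog h : lv t ≤ lv s generalizing s t
  · rw [add_comm, mul_comm]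
    exact this ht hs (le_of_not_ge h)
  refine (om_le ((lv_le.1 le_rfl).add (lv_le.1 h))).trans ?_
  rw [om, om, ← exp_add, exp_le_exp]
  have h1 : (0 : ℝ) < s := by exact_mod_cast hs
  have h2 : (0 : ℝ) < t := by exact_mod_cast ht
  have h3 := th_le (q := s + t) (q' := s) (Nat.cast_nonneg (RR (lv s))) le_rfl (by linarith)
  have h4 := th_nonneg (Nat.cast_nonneg (RR (lv t))) t
  push_cast
  nlinarith [mul_pos h1 h2]

theorem om_rad {t : ℚ} (ht : 0 < t) : Filter.Tendsto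
    (fun n : ℕ => om ((n : ℚ) * t) ^ ((1 : ℝ) / (n : ℝ))) Filter.atTop (nhds 0) := by
  have h2 : (0 : ℝ) < t := by exact_mod_cast ht
  have h3 : Filter.Tendsto (fun n : ℕ => exp ((RR (lv t) : ℝ) ^ 2 - n * (t : ℝ) ^ 2))
      Filter.atTop (nhds 0) :=
    tendsto_exp_atBot.comp (Filter.tendsto_atBot_add_const_left _ _
      (Filter.tendsto_neg_atTop_atBot.comp
        (tendsto_natCast_atTop_atTop.atTop_mul_const (by positivity))))
  refine squeeze_zero' (Filter.Eventually.of_forall fun n => rpow_nonneg (om_pos _).le _)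
    ((Filter.eventually_ge_atTop 1).mono fun n hn => ?_) h3
  have h4 : (1 : ℝ) ≤ n := by exact_mod_cast hn
  obtain ⟨m, e⟩ := lv_le.1 (le_refl (lv t))
  refine (rpow_le_rpow (om_pos _).le (om_le' (k := lv t) ⟨n * m, by rw [mul_assoc, e]; simp⟩
    (by positivity)) (by positivity)).trans ?_
  rw [← exp_mul, exp_le_exp, mul_one_div, div_le_iff₀ (by linarith)]
  push_cast
  nlinarith [sq_nonneg (RR (lv t) : ℝ)]

theorem om_gain {k : ℕ} {q y : ℚ} (hq : ¬ Lv k q) (h0 : 0 < q) (hy : Lv k y) (h1 : 0 < y) :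
    om (q + y) ≤ om q * (exp (-(RR (k + 1) / k ! : ℝ)) * exp (-(y : ℝ) ^ 2)) := by
  have hk : k + 1 ≤ lv q := Nat.succ_le_of_lt (lt_of_not_ge fun h => hq (lv_le.1 h))
  refine (om_le ((lv_le.1 le_rfl).add (hy.mono (by omega : k ≤ lv q)))).trans ?_
  rw [om, ← exp_add, ← exp_add, exp_le_exp, div_eq_mul_one_div]
  have a1 := hy.gap h1
  have a2 : (0 : ℝ) < 1 / k ! := by positivity
  have a3 : (1 : ℝ) / k ! ≤ 1 := div_le_one_of_le₀ (by exact_mod_cast k.factorial_pos) (by positivity)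
  have a4 : (RR (k + 1) : ℝ) ≤ RR (lv q) := Nat.cast_le.2 (RR_mono hk)
  have a5 : (2 : ℝ) ≤ RR (k + 1) := by exact_mod_cast (by rw [RR]; omega : 2 ≤ RR (k + 1))
  have a6 : (0 : ℝ) < q := by exact_mod_cast h0
  generalize (1 : ℝ) / k ! = g at *
  generalize (RR (lv q) : ℝ) = r at *
  generalize (RR (k + 1) : ℝ) = r' at *
  have a7 := th_le (r := r) (q := q + y) (q' := q + g) (by linarith) le_rfl (by linarith)
  have a8 : th r (q + g) - 2 * q * g ≤ th r q - r * g := by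
    rcases le_total (q + g) r with h | h
    · rw [th, th, max_eq_left (by linarith), max_eq_left (by linarith)]
      nlinarith [mul_pos a6 a2]
    · have := th_nonneg (r := r) (by linarith) q
      rw [th, max_eq_right (by linarith)]
      nlinarith
  push_cast
  nlinarith [mul_le_mul_of_nonneg_left a1 a6.le, mul_le_mul_of_nonneg_right a4 a2.le]

theorem pigeon {X : Type} (T : Finset X) (S : ℕ → Finset X) (h : ∀ j, S j ⊆ T)
    (h' : ∀ j, S j ⊆ S (j + 1)) : ∃ j ≤ T.card, S (j + 1) ⊆ S j := by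
  by_contra k
  push Not at k
  have : ∀ j ≤ T.card + 1, j ≤ (S j).card := by
    intro j hj
    induction j with
    | zero => exact Nat.zero_le _
    | succ j ih =>
      have := card_lt_card (ssubset_iff_subset_not_subset.2 ⟨h' j, k j (by omega)⟩)
      have := ih (by omega)
      omega
  have h1 := this _ le_rfl
  have h2 := card_le_card (h (T.card + 1))
  omega

end Pool.Agent.P.MP_97b573_an.Std
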