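import Pool.Agent.P.MP_97b573_an.Std1

set_option autoImplicit false

/-! The pivot recursion. -/

namespace Pool.Agent.P.MP_97b573_an.Std

open Real Finset Nat

/-- `ψ` is dominated by the weight and satisfies the relations of the coefficients `c` -/
structure Rel (c ψ : ℚ → ℝ) : Prop where
  c0 : ∀ q, 0 ≤ c q
  cz : ∀ q, q ≤ 0 → c q = 0
  sm : Summable fun q => c q * om q
  p0 : ∀ q, 0 ≤ ψ q
  le : ∀ q, ψ q ≤ om q
  eq : ∀ (a y : ℚ) (u : ℚ → ℝ), 0 < y → Summable u → 0 ≤ u a →
    (∀ q, q ≠ a → c q * ψ (q + y) ≤ u q) → c a * ψ (a + y) ≤ ∑' q, u q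

/-- the shifted Gaussian -/
noncomputable def WW (b x : ℝ) : ℝ := exp (-x ^ 2 - 2 * b * x)

theorem exp_neg_le {x : ℝ} (h : 0 < x) : exp (-x) ≤ 1 / x := by
  rw [exp_neg, one_div]
  exact inv_anti₀ h (by linarith [add_one_le_exp x])

theorem level {c ψ : ℚ → ℝ} (h : Rel c ψ) {b B : ℝ} {p t : ℚ} (hb : 0 ≤ b) (hB : 0 ≤ B)
    (hp : 0 < p) (hpt : p < t) (hbt : b ≤ t - p)
    (hW : ∀ a q : ℚ, 0 < a → a ≤ p → a < q → c q ≠ 0 → WW b (q - a) ≤ B * om q)
    {k : ℕ} (h1 : Lv k p) (h2 : Lv k t) (h3 : p ≤ k) (h4 : 1 ≤ k * c p)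
    (h5 : ∑' q, c q * om q ≤ k) (h6 : B * ∑' q, c q * om q ≤ k) : ψ t ≤ 2 / k := by
  classical
  obtain ⟨T, hT, hT'⟩ := ex_T k
  have k1 : (1 : ℝ) ≤ k := by
    have : (0 : ℚ) < k := hp.trans_le h3
    have : 0 < k := by exact_mod_cast this
    exact_mod_cast this
  have hL : Monotone (LL k (RR k)) := monotone_nat_of_le_succ fun j => by rw [LL]; omega
  obtain ⟨j, hj, hS⟩ := pigeon T (fun j => T.filter fun q => Lv k q ∧ 0 < q ∧ q ≤ p ∧
    1 ≤ LL k (RR k) j * c q) (fun _ => filter_subset _ _) fun j q hq => by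
      rw [mem_filter] at hq ⊢
      exact ⟨hq.1, hq.2.1, hq.2.2.1, hq.2.2.2.1, hq.2.2.2.2.trans (mul_le_mul_of_nonneg_right
        (Nat.cast_le.2 (hL j.le_succ)) (h.c0 q))⟩
  have kL : (k : ℝ) ≤ LL k (RR k) j := Nat.cast_le.2 (hL j.zero_le)
  obtain ⟨a, ha, ha'⟩ := exists_min_image (T.filter fun q => Lv k q ∧ 0 < q ∧ q ≤ p ∧
    1 ≤ LL k (RR k) j * c q) id ⟨p, mem_filter.2 ⟨hT' p h1 hp h3, h1, hp, le_rfl,
      h4.trans (mul_le_mul_of_nonneg_right kL (h.c0 p))⟩⟩
  obtain ⟨-, a1, a2, a3, a4⟩ := mem_filter.1 ha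
  have kL' : (0 : ℝ) < LL k (RR k) (j + 1) :=
    lt_of_lt_of_le (by linarith) (Nat.cast_le.2 (hL j.le_succ))
  have a5 : ∀ q, Lv k q → 0 < q → q < a → q ∈ T ∧ c q ≤ 1 / LL k (RR k) (j + 1) := by
    intro q q1 q2 q3
    have q4 := hT' q q1 q2 ((q3.le.trans a3).trans h3)
    refine ⟨q4, le_of_not_gt fun q5 => ?_⟩
    rw [div_lt_iff₀' kL'] at q5
    exact absurd (ha' q (hS (mem_filter.2 ⟨q4, q1, q2, q3.le.trans a3, q5.le⟩))) (not_le.2 q3)
  have f1 : (k : ℝ) * FF k (LL k (RR k) j) * (k * k !) * 3 ^ (RR k ^ 2) ≤ LL k (RR k) (j + 1) := by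
    exact_mod_cast (by rw [LL]; omega : k * FF k (LL k (RR k) j) * (k * k !) * 3 ^ (RR k ^ 2) ≤
      LL k (RR k) (j + 1))
  have f2 : (k ! : ℝ) * k ^ 2 * FF k (LL k (RR k) j) ≤ RR (k + 1) := by
    have := Nat.mul_le_mul_left (k ! * k ^ 2) (single_le_sum
      (f := fun j => FF k (LL k (RR k) j)) (fun _ _ => Nat.zero_le _)
      (mem_range.2 (Nat.lt_add_one_of_le (hj.trans hT))))
    exact_mod_cast (by rw [RR]; omega : k ! * k ^ 2 * FF k (LL k (RR k) j) ≤ RR (k + 1))
  generalize LL k (RR k) (j + 1) = L' at *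
  generalize LL k (RR k) j = L at *
  have g0 : (0 : ℝ) < k ! := by positivity
  set M : ℝ := exp ((RR k : ℝ) ^ 2) with hM
  set G : ℝ := exp (-(RR (k + 1) / k ! : ℝ)) with hG
  set ε : ℝ := k * G + k * k ! * (1 / L' * M) with hε
  have M0 : 0 < M := exp_pos _
  have G0 : 0 < G := exp_pos _
  have ε0 : 0 < ε := by positivity
  have L1 : (1 : ℝ) ≤ L := k1.trans kL
  let P : ℕ → ℝ → Prop := fun n E => ∀ x : ℚ, Lv k x → (n : ℝ) / k ! ≤ x → ψ (t + x) ≤ E * WW b x
  have xn : ∀ (n : ℕ) (x : ℚ), (n : ℝ) / k ! ≤ x → (0 : ℝ) ≤ x := fun n x hx =>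
    le_trans (by positivity) hx
  have gw : ∀ x y : ℝ, 0 ≤ x → b + x ≤ y → exp (-y ^ 2) ≤ WW b x := fun x y hx hy =>
    exp_le_exp.2 (by nlinarith)
  have a2' : (0 : ℝ) < a := by exact_mod_cast a2
  have a3' : (a : ℝ) ≤ p := by exact_mod_cast a3
  have base : ∀ n, P n M := fun n x x1 x2 => by
    have x3 := xn n x x2
    have x4 : 0 ≤ x := by exact_mod_cast x3
    refine (h.le _).trans ((om_le' (h2.add x1) (by linarith)).trans ?_)
    rw [sub_eq_add_neg, exp_add]
    exact mul_le_mul_of_nonneg_left (gw _ _ x3 (by push_cast; linarith)) M0.le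
  have step : ∀ n E, 0 ≤ E → P (n + 1) E →
      P n (L * (ε + E * k * exp (-(2 * n / k ! ^ 2 : ℝ)))) := by
    intro n E E0 hE x x1 x2
    have x3 := xn n x x2
    have x4 : 0 ≤ x := by exact_mod_cast x3
    have y0 : 0 < t - a + x := by linarith
    have y1 : Lv k (t - a + x) := (h2.sub a1).add x1
    have y2 := gw x (t - a + x : ℚ) x3 (by push_cast; linarith)
    have W0 : 0 < WW b x := exp_pos _
    set e : ℝ := exp (-(2 * n / k ! ^ 2 : ℝ)) with he
    have e0 : 0 < e := exp_pos _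
    have s2 : HasSum (fun q => if q ∈ T then 1 / L' * M * WW b x else 0)
        (∑ q ∈ T, if q ∈ T then 1 / L' * M * WW b x else 0) :=
      hasSum_sum_of_ne_finset_zero fun q hq => if_neg hq
    have s1 := h.sm.hasSum.mul_right (WW b x * (G + E * B * e))
    have n1 : ∀ q, 0 ≤ c q * om q * (WW b x * (G + E * B * e)) := fun q =>
      mul_nonneg (mul_nonneg (h.c0 q) (om_pos q).le) (by positivity)
    have n2 : ∀ q, 0 ≤ if q ∈ T then 1 / L' * M * WW b x else 0 := fun q => by positivity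
    have := h.eq a _ _ y0 (s1.add s2).summable (add_nonneg (n1 a) (n2 a)) fun q hq => ?_
    · rw [(s1.add s2).tsum_eq, sum_congr rfl fun q hq => if_pos hq, sum_const, nsmul_eq_mul,
        show a + (t - a + x) = t + x by ring] at this
      have t1 : (T.card : ℝ) ≤ k * k ! := by exact_mod_cast hT
      have t2 := mul_le_mul_of_nonneg_right t1 (by positivity : 0 ≤ 1 / L' * M * WW b x)
      have t3 := mul_le_mul_of_nonneg_right h5 (by positivity : 0 ≤ WW b x * G)
      have t4 := mul_le_mul_of_nonneg_right h6 (by positivity : 0 ≤ WW b x * E * e)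
      have t5 := mul_le_mul_of_nonneg_right a4 (h.p0 (t + x))
      have t6 : c a * ψ (t + x) ≤ (ε + E * k * e) * WW b x := by rw [hε]; linarith
      have t7 := mul_le_mul_of_nonneg_left t6 (by linarith : (0 : ℝ) ≤ L)
      linarith
    · by_cases q0 : c q = 0
      · rw [q0, zero_mul]
        exact q0 ▸ add_nonneg (n1 q) (n2 q)
      have q1 : 0 < q := lt_of_not_ge fun k => q0 (h.cz q k)
      have q1' : (0 : ℝ) < q := by exact_mod_cast q1
      have o1 := om_pos q
      by_cases q2 : Lv k q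
      · rcases lt_or_gt_of_ne hq with q3 | q3
        · obtain ⟨q4, q5⟩ := a5 q q2 q1 q3
          rw [if_pos q4, mul_assoc (1 / L' : ℝ)]
          refine le_add_of_nonneg_of_le (n1 q) (mul_le_mul q5 ((h.le _).trans
            ((om_le' (q2.add y1) (by linarith)).trans ?_)) (h.p0 _) (by positivity))
          rw [sub_eq_add_neg, exp_add]
          exact mul_le_mul_of_nonneg_left (gw _ _ x3 (by push_cast; linarith)) M0.le
        · have z1 := (q2.sub a1).gap (sub_pos.2 q3)
          have z2 := hE (x + (q - a)) (x1.add (q2.sub a1)) (by push_cast at z1 ⊢; rw [add_div]; linarith)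
          have z3 : WW b (x + (q - a) : ℚ) ≤ WW b x * WW b (q - a) * e := by
            rw [WW, WW, WW, he, ← exp_add, ← exp_add, exp_le_exp]
            have := mul_le_mul x2 z1 (by positivity) x3
            rw [_root_.div_mul_div_comm, mul_one, ← sq] at this
            push_cast at this ⊢
            rw [mul_div_assoc]
            linarith
          have z4 := mul_le_mul_of_nonneg_left (hW a q a2 a3 q3 q0) (by positivity : 0 ≤ WW b x * e)
          rw [show q + (t - a + x) = t + (x + (q - a)) by ring, mul_assoc (c q)]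
          refine le_add_of_le_of_nonneg (mul_le_mul_of_nonneg_left (z2.trans ?_) (h.c0 q)) (n2 q)
          have z5 := mul_le_mul_of_nonneg_left (z3.trans (by linarith :
            WW b x * WW b (q - a) * e ≤ WW b x * e * (B * om q))) E0
          have z6 : 0 ≤ om q * (WW b x * G) := by positivity
          linarith
      · rw [mul_assoc (c q)]
        refine le_add_of_le_of_nonneg (mul_le_mul_of_nonneg_left ((h.le _).trans
          ((om_gain q2 q1 y1 y0).trans (mul_le_mul_of_nonneg_left ?_ o1.le))) (h.c0 q)) (n2 q)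
        have z5 := mul_le_mul_of_nonneg_left y2 G0.le
        have z6 : 0 ≤ WW b x * (E * B * e) := by positivity
        linarith
  have mono : ∀ n E E', E ≤ E' → P n E → P n E' := fun n E E' hE hP x x1 x2 =>
    (hP x x1 x2).trans (mul_le_mul_of_nonneg_right hE (exp_pos _).le)
  have top : ∀ i : ℕ, P (L * k * k ! ^ 2) (2 * L * ε + M * (1 / 2) ^ i) := by
    intro i
    induction i with
    | zero => exact mono _ _ _ (by rw [pow_zero]; nlinarith) (base _)
    | succ i ih =>
      refine mono _ _ _ ?_ (step _ (2 * L * ε + M * (1 / 2) ^ i) (by positivity) fun x x1 x2 =>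
        ih x x1 (le_trans (by push_cast; gcongr; linarith) x2))
      have := exp_neg_le (x := 2 * (L * k * k ! ^ 2 : ℕ) / k ! ^ 2) (by push_cast; positivity)
      have e2 : (L : ℝ) * k * (1 / (2 * (L * k * k ! ^ 2 : ℕ) / k ! ^ 2)) = 1 / 2 := by
        push_cast
        field_simp
      have := mul_le_mul_of_nonneg_left ((mul_le_mul_of_nonneg_left this
        (by positivity : (0 : ℝ) ≤ L * k)).trans e2.le)
        (by positivity : 0 ≤ 2 * L * ε + M * (1 / 2) ^ i)
      rw [pow_succ (1 / 2 : ℝ)]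
      linarith
  have down : ∀ n i, P n ((2 * L * k) ^ i * (3 * L * ε)) → P 0 ((2 * L * k) ^ (i + n) * (3 * L * ε)) := by
    intro n
    induction n with
    | zero => exact fun i h => h
    | succ n ih =>
      intro i hi
      rw [show i + (n + 1) = i + 1 + n by ring]
      refine ih _ (mono _ _ _ ?_ (step _ _ (by positivity) hi))
      have d1 : exp (-(2 * n / k ! ^ 2 : ℝ)) ≤ 1 := exp_le_one_iff.2 (neg_nonpos.2 (by positivity))
      have d2 : (1 : ℝ) ≤ (2 * L * k) ^ i := one_le_pow₀ (by nlinarith)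
      have d3 : ε ≤ (2 * L * k) ^ i * (3 * L * ε) * k := by
        have : (1 : ℝ) ≤ (2 * L * k) ^ i * (3 * L) * k :=
          one_le_mul_of_one_le_of_one_le (one_le_mul_of_one_le_of_one_le d2 (by linarith)) k1
        nlinarith
      have d4 := mul_le_mul_of_nonneg_left d1
        (by positivity : 0 ≤ (2 * L * k : ℝ) ^ i * (3 * L * ε) * k)
      have d5 := mul_le_mul_of_nonneg_left (add_le_add d3 d4) (by linarith : (0 : ℝ) ≤ L)
      rw [pow_succ (2 * L * k : ℝ)]
      linarith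
  obtain ⟨i, hi⟩ := exists_pow_lt_of_lt_one (by positivity : 0 < L * ε / M)
    (by norm_num : (1 / 2 : ℝ) < 1)
  rw [lt_div_iff₀' M0] at hi
  have fin := down _ 0 (mono _ _ _ (by rw [pow_zero]; linarith) (top i)) 0 ⟨0, by simp⟩ (by simp)
  rw [add_zero, zero_add, WW] at fin
  have F0 : (FF k L : ℝ) = 3 * L * (2 * L * k) ^ (L * k * k ! ^ 2) := by simp [FF]
  have F1 : (0 : ℝ) < FF k L := by rw [F0]; positivity
  have u1 : FF k L * (k * G) ≤ 1 / k := by
    have v : (k : ℝ) ^ 2 * FF k L ≤ RR (k + 1) / k ! := by rw [le_div_iff₀ g0]; linarith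
    have v2 := (exp_neg_le (lt_of_lt_of_le (by positivity) v)).trans
      (one_div_le_one_div_of_le (by positivity) v)
    refine (mul_le_mul_of_nonneg_left (mul_le_mul_of_nonneg_left v2 (by linarith)) F1.le).trans_eq ?_
    field_simp
  have u2 : FF k L * (k * k ! * (1 / L' * M)) ≤ 1 / k := by
    have v : M ≤ 3 ^ (RR k ^ 2) := by
      rw [hM, ← Nat.cast_pow, ← mul_one ((RR k ^ 2 : ℕ) : ℝ), exp_nat_mul]
      exact pow_le_pow_left₀ (exp_pos _).le (exp_one_lt_d9.le.trans (by norm_num)) _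
    have v2 := mul_le_mul_of_nonneg_left v (by positivity : (0 : ℝ) ≤ k * FF k L * (k * k !))
    rw [le_div_iff₀ (by linarith), show (FF k L : ℝ) * (k * k ! * (1 / L' * M)) * k =
      k * FF k L * (k * k !) * M / L' by ring, div_le_one kL']
    linarith
  have : ψ t ≤ FF k L * ε := by
    rw [F0]
    simp only [Rat.cast_zero, mul_zero, sub_zero, ne_eq, OfNat.ofNat_ne_zero, not_false_eq_true,
      zero_pow, neg_zero, exp_zero, mul_one] at fin
    linarith
  rw [hε, mul_add] at this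
  rw [show (2 : ℝ) / k = 1 / k + 1 / k by ring]
  linarith

end Pool.Agent.P.MP_97b573_an.Std
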