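import Pool.Agent.P.MP_97b573_an.Std2

set_option autoImplicit false

/-! Every closed ideal is standard. -/

namespace Pool.Agent.P.MP_97b573_an.Std

open Real Filter

theorem ev_Lv (q : ℚ) : ∀ᶠ k in atTop, Lv k q := by
  obtain ⟨k, hk⟩ := ex_Lv q
  exact (eventually_ge_atTop k).mono fun j hj => hk.mono hj

theorem vanish0 {c ψ : ℚ → ℝ} (h : Rel c ψ) {b B : ℝ} {p t : ℚ} (hb : 0 ≤ b) (hB : 0 ≤ B)
    (hp : 0 < p) (hpt : p < t) (hbt : b ≤ t - p)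
    (hW : ∀ a q : ℚ, 0 < a → a ≤ p → a < q → c q ≠ 0 → WW b (q - a) ≤ B * om q)
    (hc : c p ≠ 0) : ψ t = 0 := by
  refine le_antisymm (ge_of_tendsto (tendsto_const_div_atTop_nhds_zero_nat (2 : ℝ)) ?_) (h.p0 t)
  filter_upwards [ev_Lv p, ev_Lv t, tendsto_natCast_atTop_atTop.eventually_ge_atTop p,
    (tendsto_natCast_atTop_atTop.atTop_mul_const ((h.c0 p).lt_of_ne' hc)).eventually_ge_atTop 1,
    tendsto_natCast_atTop_atTop.eventually_ge_atTop (∑' q, c q * om q),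
    tendsto_natCast_atTop_atTop.eventually_ge_atTop (B * ∑' q, c q * om q)]
    with k h1 h2 h3 h4 h5 h6 using level h hb hB hp hpt hbt hW h1 h2 h3 h4 h5 h6

theorem vanish {c ψ : ℚ → ℝ} (h : Rel c ψ) {p t : ℚ} (hc : c p ≠ 0) (hpt : p < t) : ψ t = 0 := by
  have hp : 0 < p := lt_of_not_ge fun k => hc (h.cz p k)
  have hp' : (0 : ℝ) < p := by exact_mod_cast hp
  have s1 : ∀ t, 2 * p ≤ t → ψ t = 0 := fun t ht => by
    have ht' : (2 * p : ℝ) ≤ t := by exact_mod_cast ht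
    refine vanish0 h hp'.le (exp_pos ((p : ℝ) ^ 2)).le hp (by linarith) (by linarith)
      (fun a q a1 a2 a3 _ => le_trans ?_ (mul_le_mul_of_nonneg_left (le_om q) (exp_pos _).le)) hc
    have b1 : (0 : ℝ) < q := by exact_mod_cast a1.trans a3
    have b2 : (a : ℝ) ≤ p := by exact_mod_cast a2
    rw [WW, ← exp_add, exp_le_exp]
    nlinarith [sq_nonneg ((a : ℝ) - p)]
  have s2 : ∀ q y, 0 < y → (if q ≤ 2 * p then c q else 0) * ψ (q + y) = c q * ψ (q + y) := by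
    intro q y hy
    split_ifs with k
    · rfl
    · rw [s1 _ (by linarith), mul_zero, mul_zero]
  have s3 : ∀ q, 0 ≤ (if q ≤ 2 * p then c q else 0) ∧ (if q ≤ 2 * p then c q else 0) ≤ c q := by
    intro q
    split_ifs
    exacts [⟨h.c0 q, le_rfl⟩, ⟨le_rfl, h.c0 q⟩]
  refine vanish0 (c := fun q => if q ≤ 2 * p then c q else 0) ⟨fun q => (s3 q).1,
    fun q k => by rw [h.cz q k, ite_self], h.sm.of_nonneg_of_le
      (fun q => mul_nonneg (s3 q).1 (om_pos q).le)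
      fun q => mul_le_mul_of_nonneg_right (s3 q).2 (om_pos q).le, h.p0, h.le,
    fun a y u y0 => by simpa only [s2 _ y y0] using h.eq a y u y0⟩ le_rfl
    (exp_pos (4 * (p : ℝ) ^ 2)).le hp hpt (by exact_mod_cast (sub_pos.2 hpt).le)
    (fun a q a1 _ a3 a4 => le_trans ?_ (mul_le_mul_of_nonneg_left (le_om q) (exp_pos _).le))
    (by rwa [if_pos (by linarith)])
  have b1 : (0 : ℝ) < q := by exact_mod_cast a1.trans a3
  have b2 : (q : ℝ) ≤ 2 * p := by exact_mod_cast (by_contra fun k => a4 (if_neg k) : q ≤ 2 * p)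
  rw [WW, ← exp_add, exp_le_exp]
  nlinarith [sq_nonneg ((q : ℝ) - a)]

/-- the unweighted model of a summable function -/
noncomputable def toE (g : ℚ → ℂ) (hg : Summable fun q => ‖g q‖ * om q) :
    lp (fun _ : ℚ => ℂ) 1 :=
  ⟨fun q => g q * om q, memℓp_gen (by simpa [abs_of_pos (om_pos _)] using hg)⟩

theorem dist_fun {I : Set (ℚ → ℂ)}
    (h1 : ∀ f ∈ I, (∀ q : ℚ, q ≤ 0 → f q = 0) ∧ Summable (fun q : ℚ => ‖f q‖ * om q))
    (h2 : (0 : ℚ → ℂ) ∈ I) (h3 : ∀ f ∈ I, ∀ g ∈ I, f + g ∈ I) (h4 : ∀ c : ℂ, ∀ f ∈ I, c • f ∈ I)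
    (h6 : ∀ f : ℚ → ℂ, (∀ q : ℚ, q ≤ 0 → f q = 0) → Summable (fun q : ℚ => ‖f q‖ * om q) →
      (∀ ε : ℝ, 0 < ε → ∃ g ∈ I, ∑' q : ℚ, ‖f q - g q‖ * om q < ε) → f ∈ I) :
    ∃ ψ : ℚ → ℝ, (∀ q, 0 ≤ ψ q) ∧ (∀ q, ψ q ≤ om q) ∧
      (∀ g ∈ I, ∀ (a : ℚ) (u : ℚ → ℝ), Summable u → 0 ≤ u a →
        (∀ q, q ≠ a → ‖g q‖ * ψ q ≤ u q) → ‖g a‖ * ψ a ≤ ∑' q, u q) ∧
      ∀ f : ℚ → ℂ, (∀ q : ℚ, q ≤ 0 → f q = 0) → Summable (fun q : ℚ => ‖f q‖ * om q) →
        (∀ q, f q ≠ 0 → ψ q = 0) → f ∈ I := by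
  classical
  have o0 : ∀ q, (om q : ℂ) ≠ 0 := fun q => by exact_mod_cast (om_pos q).ne'
  let J : Submodule ℂ (lp (fun _ : ℚ => ℂ) 1) :=
    { carrier := {F | (fun q => F q / om q) ∈ I}
      add_mem' := fun {F G} hF hG => by
        have := h3 _ hF _ hG
        simpa [Pi.add_def, add_div] using this
      zero_mem' := by simpa [Pi.zero_def] using h2
      smul_mem' := fun c F hF => by
        have := h4 c _ hF
        simpa [Pi.smul_def, mul_div_assoc] using this }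
  have hs : ∀ g hg, HasSum (fun q => g q • J.mkQ (lp.single 1 q (om q))) (J.mkQ (toE g hg)) := by
    intro g hg
    simp only [← map_smul, ← lp.single_smul]
    exact (lp.hasSum_single ENNReal.one_ne_top (toE g hg)).mapL J.mkQL
  refine ⟨fun q => ‖J.mkQ (lp.single 1 q (om q))‖, fun q => norm_nonneg _, fun q => ?_,
    fun g hg a u hu ha hq => ?_, fun f f1 f2 f3 => h6 f f1 f2 fun ε hε => ?_⟩
  · refine (Submodule.Quotient.norm_mk_le _ _).trans_eq ?_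
    rw [lp.norm_single one_pos, Complex.norm_real, norm_of_nonneg (om_pos q).le]
  · have e : J.mkQ (toE g (h1 g hg).2) = 0 := by
      refine (Submodule.Quotient.mk_eq_zero J).2 ?_
      show (fun q => g q * om q / om q) ∈ I
      simpa [o0] using hg
    have := (hasSum_ite_sub_hasSum (hs g (h1 g hg).2) a).norm_le_of_bounded hu.hasSum fun q => by
      split_ifs with k
      · rwa [norm_zero, k]
      · rw [norm_smul]
        exact hq q k
    rwa [e, zero_sub, norm_neg, norm_smul] at this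
  · have e := (hs f f2).norm_le_of_bounded hasSum_zero fun q => by
      rw [norm_smul]
      by_cases k : f q = 0
      · rw [k, norm_zero, zero_mul]
      · exact (mul_eq_zero_of_right _ (f3 q k)).le
    obtain ⟨m, m1, m2⟩ := Submodule.Quotient.norm_mk_lt (J.mkQ (toE f f2)) hε
    refine ⟨_, (Submodule.Quotient.eq J).1 m1.symm, ?_⟩
    have m3 := lp.norm_eq_tsum_rpow (p := 1) (by simp) m
    simp only [ENNReal.toReal_one, rpow_one, div_one] at m3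
    refine lt_of_eq_of_lt (tsum_congr fun q => ?_) (m3 ▸ m2.trans_le (by linarith))
    show ‖f q - (f q * om q - m q) / om q‖ * om q = _
    rw [sub_div, mul_div_cancel_right₀ _ (o0 q), sub_sub_cancel, norm_div, Complex.norm_real,
      norm_of_nonneg (om_pos q).le, div_mul_cancel₀ _ (om_pos q).ne']

theorem main {I : Set (ℚ → ℂ)}
    (h1 : ∀ f ∈ I, (∀ q : ℚ, q ≤ 0 → f q = 0) ∧ Summable (fun q : ℚ => ‖f q‖ * om q))
    (h2 : (0 : ℚ → ℂ) ∈ I) (h3 : ∀ f ∈ I, ∀ g ∈ I, f + g ∈ I) (h4 : ∀ c : ℂ, ∀ f ∈ I, c • f ∈ I)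
    (h5 : ∀ a : ℚ → ℂ, (∀ q : ℚ, q ≤ 0 → a q = 0) → Summable (fun q : ℚ => ‖a q‖ * om q) →
      ∀ f ∈ I, (fun t : ℚ => ∑' s : ℚ, a s * f (t - s)) ∈ I)
    (h6 : ∀ f : ℚ → ℂ, (∀ q : ℚ, q ≤ 0 → f q = 0) → Summable (fun q : ℚ => ‖f q‖ * om q) →
      (∀ ε : ℝ, 0 < ε → ∃ g ∈ I, ∑' q : ℚ, ‖f q - g q‖ * om q < ε) → f ∈ I) :
    I = {(0 : ℚ → ℂ)} ∨ ∃ α : ℝ, 0 ≤ α ∧
      (I = {f : ℚ → ℂ | (∀ q : ℚ, q ≤ 0 → f q = 0) ∧ Summable (fun q : ℚ => ‖f q‖ * om q) ∧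
          ∀ q : ℚ, (q : ℝ) < α → f q = 0} ∨
        I = {f : ℚ → ℂ | (∀ q : ℚ, q ≤ 0 → f q = 0) ∧ Summable (fun q : ℚ => ‖f q‖ * om q) ∧
          ∀ q : ℚ, (q : ℝ) ≤ α → f q = 0}) := by
  classical
  obtain ⟨ψ, p1, p2, p3, p4⟩ := dist_fun h1 h2 h3 h4 h6
  have tr : ∀ f ∈ I, ∀ y : ℚ, 0 < y → (fun t => f (t - y)) ∈ I := fun f hf y hy => by
    have := h5 (Pi.single y 1) (fun q k => Pi.single_eq_of_ne (k.trans_lt hy).ne _)
      (summable_of_ne_finset_zero (s := {y}) fun q k => by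
        rw [Pi.single_eq_of_ne (by simpa using k), norm_zero, zero_mul]) f hf
    refine Set.mem_of_eq_of_mem (funext fun t => ?_) this
    rw [tsum_eq_single y fun q k => by rw [Pi.single_eq_of_ne k, zero_mul], Pi.single_eq_same,
      one_mul]
  have van : ∀ f ∈ I, ∀ p t : ℚ, f p ≠ 0 → p < t → ψ t = 0 := fun f hf p t hp hpt => by
    refine vanish (c := fun q => ‖f q‖) ⟨fun _ => norm_nonneg _,
      fun q k => norm_eq_zero.2 ((h1 f hf).1 q k), (h1 f hf).2, p1, p2,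
      fun a y u y0 hu ha hq => ?_⟩ (norm_ne_zero_iff.2 hp) hpt
    have := p3 _ (tr f hf y y0) (a + y) (fun q => u (q - y))
      ((Equiv.subRight y).summable_iff.2 hu) (by rwa [add_sub_cancel_right]) fun q k => by
        simpa only [sub_add_cancel] using hq (q - y) fun j => k (sub_eq_iff_eq_add.1 j)
    rwa [add_sub_cancel_right, show ∑' q, u (q - y) = _ from (Equiv.subRight y).tsum_eq u] at this
  by_cases z : ∃ f ∈ I, f ≠ 0
  swap
  · exact Or.inl (Set.eq_singleton_iff_unique_mem.2 ⟨h2, fun f hf => by_contra fun k => z ⟨f, hf, k⟩⟩)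
  set S : Set ℝ := {x | ∃ q : ℚ, x = q ∧ ∃ f ∈ I, f q ≠ 0} with hS
  have S0 : ∀ x ∈ S, 0 ≤ x := by
    rintro _ ⟨q, rfl, f, hf, k⟩
    exact_mod_cast (lt_of_not_ge fun j => k ((h1 f hf).1 q j)).le
  have S1 : S.Nonempty := by
    obtain ⟨f, hf, k⟩ := z
    obtain ⟨q, hq⟩ := Function.ne_iff.1 k
    exact ⟨q, q, rfl, f, hf, hq⟩
  have S2 : ∀ f ∈ I, ∀ q : ℚ, f q ≠ 0 → sInf S ≤ q := fun f hf q k =>
    csInf_le ⟨0, S0⟩ ⟨q, rfl, f, hf, k⟩
  have S3 : ∀ t : ℚ, sInf S < t → ψ t = 0 := fun t ht => by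
    obtain ⟨_, ⟨q, rfl, f, hf, k⟩, j⟩ := exists_lt_of_csInf_lt S1 ht
    exact van f hf q t k (by exact_mod_cast j)
  refine Or.inr ⟨sInf S, le_csInf S1 S0, ?_⟩
  by_cases w : sInf S ∈ S
  · obtain ⟨p, e, f, hf, k⟩ := w
    have p5 : ψ p = 0 := by
      have := p3 f hf p 0 summable_zero le_rfl fun q j => by
        by_cases i : f q = 0
        · simp [i]
        · simp [S3 q ((S2 f hf q i).lt_of_ne (by rw [e]; exact_mod_cast j.symm))]
      rw [show ∑' q : ℚ, (0 : ℚ → ℝ) q = 0 from tsum_zero] at this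
      exact le_antisymm (nonpos_of_mul_nonpos_right this (norm_pos_iff.2 k)) (p1 p)
    refine Or.inl (Set.ext fun g => ⟨fun hg => ⟨(h1 g hg).1, (h1 g hg).2, fun q j =>
      by_contra fun i => (S2 g hg q i).not_gt j⟩, fun hg => p4 g hg.1 hg.2.1 fun q i => ?_⟩)
    rcases (le_of_not_gt fun j => i (hg.2.2 q j)).eq_or_lt with j | j
    · rwa [← (by exact_mod_cast e.symm.trans j : p = q)]
    · exact S3 q j
  · exact Or.inr (Set.ext fun g => ⟨fun hg => ⟨(h1 g hg).1, (h1 g hg).2, fun q j =>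
      by_contra fun i => w ⟨q, (S2 g hg q i).antisymm j, g, hg, i⟩⟩,
      fun hg => p4 g hg.1 hg.2.1 fun q i => S3 q (lt_of_not_ge fun j => i (hg.2.2 q j))⟩)

end Pool.Agent.P.MP_97b573_an.Std
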